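import Pool.Agent.Helper25.FA.Exi
import Pool.Agent.Helper58.VW.Exch

/-!
# Symmetry of the array under permutations of columns and of rows (FW, row A1)
-/

set_option autoImplicit false

namespace Pool.Agent.Helper25.FA

open Finset Pool.Agent.Helper69.RK Pool.Agent.Helper61.GL Pool.Agent.Helper31.EC Pool.Agent.Helper6.VS
  Pool.Agent.Helper46.WF

theorem Pw_equiv {Ω : Type} [Fintype Ω] (e : Ω ≃ Ω) (μ : Ω → ℝ) (h : ∀ w, μ (e w) = μ w) (S : Ω → Prop) :
    Pw μ (fun w => S (e w)) = Pw μ S := by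
  classical
  unfold Pw
  rw [← e.sum_comp (fun w => if S w then μ w else 0)]
  refine Finset.sum_congr rfl fun w _ => ?_
  rw [h w]

variable {Ω φ α β : Type} [Fintype Ω] {N : ℕ} (D : ED Ω φ α β N) {ιr ιc : Type} [Fintype ιr]
  [Fintype ιc] [DecidableEq ιr] [DecidableEq ιc]

/-- permutation of the columns of a state -/
def pcol (Ω : Type) (σ : Equiv.Perm ιc) : (ιc → Ω) ≃ (ιc → Ω) where
  toFun x := fun b => x (σ b)
  invFun x := fun b => x (σ.symm b)
  left_inv x := by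
    funext b
    show x (σ (σ.symm b)) = x b
    rw [σ.apply_symm_apply]
  right_inv x := by
    funext b
    show x (σ.symm (σ b)) = x b
    rw [σ.symm_apply_apply]

/-- permutation of the columns of the array -/
def acol (Ω ιr : Type) (σ : Equiv.Perm ιc) : (ιr → ιc → Ω) ≃ (ιr → ιc → Ω) :=
  Equiv.piCongrRight fun _ => pcol Ω σ

/-- permutation of the rows of the array -/
def arow (Ω ιc : Type) (σ : Equiv.Perm ιr) : (ιr → ιc → Ω) ≃ (ιr → ιc → Ω) := pcol (ιc → Ω) σ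

omit [DecidableEq ιr] in
theorem tht_col (σ : Equiv.Perm ιc) (x : ιc → Ω) : tht D ιc (fun b => x (σ b)) = tht D ιc x :=
  ipw_perm D.μ (labG D) σ x

theorem arr_col (b0 : ιc) (σ : Equiv.Perm ιc) (A : ιr → ιc → Ω) :
    arr D ιr b0 (fun a b => A a (σ b)) = arr D ιr b0 A := by
  refine ipw_symm (tht D ιc) (labH D b0) (pcol Ω σ) (tht_col D σ) ?_ A
  intro x x' hx hx'
  have k1 := ipw_supp_eq D.μ (labG D) x hx (σ b0) b0
  have k2 := ipw_supp_eq D.μ (labG D) x' hx' (σ b0) b0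
  simp only [labG, Prod.mk.injEq] at k1 k2
  show ((D.F (x (σ b0)), D.zd (x (σ b0))), fun b => D.Q (x (σ b))) =
    ((D.F (x' (σ b0)), D.zd (x' (σ b0))), fun b => D.Q (x' (σ b))) ↔
    ((D.F (x b0), D.zd (x b0)), fun b => D.Q (x b)) = ((D.F (x' b0), D.zd (x' b0)), fun b => D.Q (x' b))
  rw [k1.1.1, k1.1.2, k2.1.1, k2.1.2, Prod.mk.injEq, Prod.mk.injEq (D.F (x b0), D.zd (x b0))]
  constructor
  · rintro ⟨e1, e2⟩
    refine ⟨e1, funext fun b => ?_⟩
    have := congrFun e2 (σ.symm b)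
    simp only [σ.apply_symm_apply] at this
    exact this
  · rintro ⟨e1, e2⟩
    exact ⟨e1, funext fun b => congrFun e2 (σ b)⟩

theorem arr_rowp (b0 : ιc) (σ : Equiv.Perm ιr) (A : ιr → ιc → Ω) :
    arr D ιr b0 (fun a b => A (σ a) b) = arr D ιr b0 A :=
  ipw_perm (tht D ιc) (labH D b0) σ A

/-- events, columns permuted -/
theorem Pw_col (b0 : ιc) (σ : Equiv.Perm ιc) (S : (ιr → ιc → Ω) → Prop) :
    Pw (arr D ιr b0) (fun A => S (fun a b => A a (σ b))) = Pw (arr D ιr b0) S :=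
  Pw_equiv (acol Ω ιr σ) (arr D ιr b0) (fun A => arr_col D b0 σ A) S

/-- events, rows permuted -/
theorem Pw_row (b0 : ιc) (σ : Equiv.Perm ιr) (S : (ιr → ιc → Ω) → Prop) :
    Pw (arr D ιr b0) (fun A => S (fun a b => A (σ a) b)) = Pw (arr D ιr b0) S :=
  Pw_equiv (arow Ω ιc σ) (arr D ιr b0) (fun A => arr_rowp D b0 σ A) S

end Pool.Agent.Helper25.FA
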