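import Pool.Agent.Helper25.FA.Sym
import Pool.Agent.Helper58.TR.Tvd
import Pool.Agent.Helper92.FW.Chn

/-!
# Windows along a chain (FW, row A1 (vii))

The law of a function of the point `i + 1` of the chain given the whole past is its law under `Θ` given `f i` at the
point `i`, also for the chain law conditioned on a label of the base.
-/

set_option autoImplicit false

namespace Pool.Agent.Helper25.FA

open Finset Pool.Agent.Helper69.RK Pool.Agent.Helper61.GL Pool.Agent.Helper31.EC Pool.Agent.Helper6.VS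
  Pool.Agent.Helper46.WF Pool.Agent.Helper58.TR Pool.Agent.Helper92.FW

section gen

variable {Ω Ω' γ δ V : Type} [Fintype Ω] [Fintype Ω']

theorem Pw_sum (μ : Ω → ℝ) (S : Ω → Prop) : Pw μ S = ∑ ω, μ ω * e1_ind (S ω) := by
  classical
  unfold Pw
  refine Finset.sum_congr rfl fun ω _ => ?_
  by_cases h : S ω
  · rw [if_pos h, e1_ind_pos h, mul_one]
  · rw [if_neg h, e1_ind_neg h, mul_zero]

theorem cw_eq_ind (μ : Ω → ℝ) (G : Ω → γ) (ω ω' : Ω) :
    cw μ G ω ω' = μ ω' * e1_ind (G ω' = G ω) / pr μ G ω := by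
  unfold cw
  by_cases h : G ω' = G ω
  · rw [if_pos h, e1_ind_pos h, mul_one]
  · rw [if_neg h, e1_ind_neg h, mul_zero]

/-- equivalent labels -/
theorem cw_iff (μ : Ω → ℝ) (G : Ω → γ) (G' : Ω → δ)
    (h : ∀ ω ω', μ ω ≠ 0 → μ ω' ≠ 0 → (G ω = G ω' ↔ G' ω = G' ω')) (ω : Ω) (hω : μ ω ≠ 0) :
    cw μ G ω = cw μ G' ω := by
  classical
  funext ω'
  have h1 : pr μ G ω = pr μ G' ω := by
    rw [e1_pr_eq, e1_pr_eq]
    refine Finset.sum_congr rfl fun ω'' _ => ?_
    by_cases h0 : μ ω'' = 0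
    · rw [h0]
      simp
    · by_cases h2 : G ω'' = G ω
      · rw [if_pos h2, if_pos ((h ω'' ω h0 hω).1 h2)]
      · rw [if_neg h2, if_neg (fun h3 => h2 ((h ω'' ω h0 hω).2 h3))]
  rw [cw_eq_ind, cw_eq_ind, h1]
  by_cases h0 : μ ω' = 0
  · rw [h0]
    simp
  · rw [ind_congr (h ω' ω h0 hω)]

/-- conditional laws and push forward -/
theorem cw_push (π : Ω' → Ω) (ν : Ω' → ℝ) (g : Ω → γ) (S : Ω → Prop) (w : Ω') :
    Pw (cw ν (fun v => g (π v)) w) (fun v => S (π v)) = Pw (cw (push π ν) g (π w)) S := by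
  rw [Pw_sum, Pw_sum]
  have h1 := Pool.Agent.Helper70.RK.e5_sum π ν (fun y => e1_ind (g y = g (π w)) / pr (push π ν) g (π w) * e1_ind (S y))
  have h2 : ∀ y, cw (push π ν) g (π w) y * e1_ind (S y) =
      push π ν y * (e1_ind (g y = g (π w)) / pr (push π ν) g (π w) * e1_ind (S y)) := by
    intro y
    rw [cw_eq_ind]
    ring
  rw [Finset.sum_congr rfl fun y _ => h2 y, h1, Pool.Agent.Helper70.RK.e5_pr]
  refine Finset.sum_congr rfl fun v _ => ?_
  rw [cw_eq_ind]
  ring

/-- a finer label after a coarser one -/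
theorem cw_cw (ν : Ω → ℝ) (hν : ∀ ω, 0 ≤ ν ω) (X : Ω → γ) (G : Ω → δ)
    (h : ∀ ω ω', ν ω ≠ 0 → ν ω' ≠ 0 → G ω = G ω' → X ω = X ω') (w v : Ω) (hw : ν w ≠ 0)
    (hv : cw ν X w v ≠ 0) : cw (cw ν X w) G v = cw ν G v := by
  classical
  obtain ⟨a, b⟩ := cw_ne_zero ν X hv
  have hp : 0 < pr ν X w := e1_pr_pos ν X hν w hw
  have h1 : pr (cw ν X w) G v = pr ν G v / pr ν X w := by
    rw [e1_pr_eq, e1_pr_eq, Finset.sum_div]
    refine Finset.sum_congr rfl fun ω _ => ?_
    by_cases h2 : G ω = G v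
    · rw [if_pos h2, if_pos h2, cw_eq_ind]
      by_cases h0 : ν ω = 0
      · rw [h0]
        simp
      · rw [e1_ind_pos ((h ω v h0 b h2).trans a), mul_one]
    · rw [if_neg h2, if_neg h2, zero_div]
  funext ω
  rw [cw_eq_ind, cw_eq_ind, h1, cw_eq_ind]
  by_cases h0 : ν ω = 0
  · rw [h0]
    simp
  by_cases h2 : G ω = G v
  · rw [e1_ind_pos h2, e1_ind_pos ((h ω v h0 b h2).trans a)]
    have hp2 : 0 < pr ν G v := e1_pr_pos ν G hν v b
    field_simp
  · rw [e1_ind_neg h2]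
    simp

end gen

section chain

variable {Λ St κ δ χ V : Type} [Fintype Λ] [Fintype St] [Fintype V]

omit [Fintype V] in
/-- one step -/
theorem ex_cw (l : Λ → ℝ) (r : Λ → St) (Θ : St → ℝ) (f : St → κ) (hl : ∀ w, 0 ≤ l w) (hr : push r l = Θ)
    (Y : Λ → δ) (hY : ∀ v v', l v ≠ 0 → l v' ≠ 0 → Y v = Y v' → f (r v) = f (r v')) (S : St → Prop)
    (w : Λ × St) (hw : l w.1 ≠ 0) :
    Pw (cw (ex l r Θ f) (fun v => Y v.1) w) (fun v => S v.2) = Pw (cw Θ f (r w.1)) S := by
  have t0 := Th_nonneg l r Θ hl hr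
  have hp : 0 < pr l Y w.1 := e1_pr_pos l Y hl w.1 hw
  have h1 : pr (ex l r Θ f) (fun v => Y v.1) w = pr l Y w.1 := by
    have h := Pool.Agent.Helper70.RK.e5_pr Prod.fst (ex l r Θ f) Y w
    rw [ex_fst l r Θ f hl hr] at h
    exact h.symm
  have h2 : Pw (cw (ex l r Θ f) (fun v => Y v.1) w) (fun v => S v.2) =
      (∑ v : Λ, l v * e1_ind (Y v = Y w.1) * Pw (cw Θ f (r v)) S) / pr l Y w.1 := by
    rw [Pw_sum, Fintype.sum_prod_type, Finset.sum_div]
    refine Finset.sum_congr rfl fun v _ => ?_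
    rw [Pw_sum, Finset.mul_sum, Finset.sum_div]
    refine Finset.sum_congr rfl fun s _ => ?_
    rw [cw_eq_ind, h1]
    show l v * cw Θ f (r v) s * e1_ind (Y v = Y w.1) / pr l Y w.1 * e1_ind (S s) = _
    ring
  rw [h2, div_eq_iff hp.ne']
  have h3 : ∀ v : Λ, l v * e1_ind (Y v = Y w.1) * Pw (cw Θ f (r v)) S =
      (l v * e1_ind (Y v = Y w.1)) * Pw (cw Θ f (r w.1)) S := by
    intro v
    by_cases h0 : l v = 0
    · rw [h0]
      simp
    by_cases h4 : Y v = Y w.1
    · have h5 : cw Θ f (r v) = cw Θ f (r w.1) := funext fun s => cw_congr Θ f (hY v w.1 h0 hw h4) s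
      rw [h5]
    · rw [e1_ind_neg h4]
      ring
  rw [Finset.sum_congr rfl fun v _ => h3 v, ← Finset.sum_mul, mul_comm]
  congr 1
  rw [e1_pr_ind]
  exact Finset.sum_congr rfl fun v _ => mul_comm _ _

/-- the past at the point `i`: the base and the points `0, .., i` -/
def past (r : Λ → St) (n i : ℕ) (w : Lam Λ St n) : Λ × (Fin (i + 1) → St) :=
  (bs n w, fun j => pt r n j.1 w)

variable (l : Λ → ℝ) (r : Λ → St) (Θ : St → ℝ) (f : ℕ → St → κ) (hl : ∀ w, 0 ≤ l w) (hr : push r l = Θ)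
include hl hr

omit [Fintype V] in
/-- **the law of the new point given the past** -/
theorem law_new (n i : ℕ) (hi : i < n) (S : St → Prop) (w : Lam Λ St n) (hw : law l r Θ f n w ≠ 0) :
    Pw (cw (law l r Θ f n) (past r n i) w) (fun v => S (pt r n (i + 1) v)) =
      Pw (cw Θ (f i) (pt r n i w)) S := by
  induction n with
  | zero => exact absurd hi (Nat.not_lt_zero i)
  | succ n ih =>
    have hw1 : law l r Θ f n w.1 ≠ 0 := (ex_supp _ _ _ _ w hw).1
    have n0 := law_nonneg l r Θ f hl hr n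
    have nc := law_cur l r Θ f hl hr n
    have e0 : past r (n + 1) i = fun v : Lam Λ St (n + 1) => past r n i v.1 := by
      funext v
      refine Prod.ext rfl (funext fun j => ?_)
      exact pt_succ r n j.1 (by have := j.2; omega) v
    rcases Nat.lt_or_ge i n with h1 | h1
    · have h2 := cw_push (Prod.fst : Lam Λ St n × St → Lam Λ St n) (law l r Θ f (n + 1)) (past r n i)
        (fun v => S (pt r n (i + 1) v)) w
      have h3 : push (Prod.fst : Lam Λ St n × St → Lam Λ St n) (law l r Θ f (n + 1)) = law l r Θ f n :=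
        ex_fst _ _ _ _ n0 nc
      rw [h3, ih h1 w.1 hw1] at h2
      have h4 : (fun v : Lam Λ St (n + 1) => S (pt r (n + 1) (i + 1) v)) =
          fun v : Lam Λ St (n + 1) => S (pt r n (i + 1) v.1) :=
        funext fun v => by rw [pt_succ r n (i + 1) h1 v]
      rw [e0, h4, pt_succ r n i (by omega) w]
      exact h2
    · have h5 : i = n := by omega
      subst h5
      have h2 := ex_cw (law l r Θ f i) (cur r i) Θ (f i) n0 nc (past r i i) (by
        intro v v' _ _ e
        have e1 := congrFun (Prod.ext_iff.1 e).2 (Fin.last i)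
        have e2 : pt r i i v = pt r i i v' := e1
        rw [pt_last, pt_last] at e2
        rw [e2]) S w hw1
      have h4 : (fun v : Lam Λ St (i + 1) => S (pt r (i + 1) (i + 1) v)) =
          fun v : Lam Λ St (i + 1) => S v.2 :=
        funext fun v => by rw [show pt r (i + 1) (i + 1) v = v.2 from pt_last r (i + 1) v]
      rw [e0, h4, pt_succ r i i le_rfl w, pt_last]
      exact h2

/-- the same in terms of closeness -/
theorem law_cle (n i : ℕ) (hi : i < n) (W : St → V) (u : V → ℝ) (ε : ℝ) (w : Lam Λ St n)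
    (hw : law l r Θ f n w ≠ 0) :
    Cle (cw (law l r Θ f n) (past r n i) w) (fun v => W (pt r n (i + 1) v)) u ε ↔
      Cle (cw Θ (f i) (pt r n i w)) W u ε := by
  unfold Cle
  have h : ∀ S : V → Prop, Pw (cw (law l r Θ f n) (past r n i) w) (fun v => S (W (pt r n (i + 1) v))) =
      Pw (cw Θ (f i) (pt r n i w)) (fun x => S (W x)) :=
    fun S => law_new l r Θ f hl hr n i hi (fun x => S (W x)) w hw
  constructor
  · intro h1 S
    rw [← h S]
    exact h1 S
  · intro h1 S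
    rw [h S]
    exact h1 S

/-- conditioned on a label of the base -/
theorem law_cle' (X : Λ → χ) (n i : ℕ) (hi : i < n) (W : St → V) (u : V → ℝ) (ε : ℝ) (w v : Lam Λ St n)
    (hw : law l r Θ f n w ≠ 0) (hv : cw (law l r Θ f n) (fun v => X (bs n v)) w v ≠ 0) :
    Cle (cw (cw (law l r Θ f n) (fun v => X (bs n v)) w) (past r n i) v) (fun v => W (pt r n (i + 1) v)) u ε ↔
      Cle (cw Θ (f i) (pt r n i v)) W u ε := by
  rw [cw_cw (law l r Θ f n) (law_nonneg l r Θ f hl hr n) (fun v => X (bs n v)) (past r n i)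
    (fun ω ω' _ _ e => congrArg X (Prod.ext_iff.1 e).1) w v hw hv]
  exact law_cle l r Θ f hl hr n i hi W u ε v (cw_ne_zero _ _ hv).2

/-- the mass of the bad pasts at step `i` -/
theorem law_bad (n i : ℕ) (hi : i < n) (W : St → V) (u : St → V → ℝ) (ε : ℝ) :
    Pw (law l r Θ f n) (fun w => ¬ Cle (cw (law l r Θ f n) (past r n i) w)
      (fun v => W (pt r n (i + 1) v)) (u (pt r n i w)) ε) = Pw Θ (fun x => ¬ Cle (cw Θ (f i) x) W (u x) ε) := by
  have h1 := Pool.Agent.Helper70.RK.e5_sum (pt r n i) (law l r Θ f n)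
    (fun x => e1_ind (¬ Cle (cw Θ (f i) x) W (u x) ε))
  rw [law_pt l r Θ f hl hr n i (by omega)] at h1
  rw [Pw_sum, Pw_sum, h1]
  refine Finset.sum_congr rfl fun w _ => ?_
  by_cases h0 : law l r Θ f n w = 0
  · rw [h0, zero_mul, zero_mul]
  · rw [ind_congr (not_congr (law_cle l r Θ f hl hr n i hi W (u (pt r n i w)) ε w h0))]

end chain

/-! ### the array -/

section array

variable {Ω φ α β η V : Type} [Fintype Ω] [Fintype V] {N : ℕ} {D : ED Ω φ α β N} {Λ ιr ιc : Type} [Fintype Λ]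
  [Fintype ιr] [Fintype ιc] [DecidableEq ιr] [DecidableEq ιc] {l : Λ → ℝ} {en : ιr → ιc → Λ → Ω} {E : ℝ}

/-- the part of the glueing label which is almost independent of the moving vertex -/
noncomputable def Xmv (D : ED Ω φ α β N) (b0 : ιc) (mv : Option ιc) (x : ιc → Ω) :
    (φ × (ιc → β)) × (Fin N → ℤ) := ((D.F (x b0), fun b => D.Q (x b)), zmv D b0 mv x)

omit [Fintype V] [DecidableEq ιr] in
theorem cw_gl (Θ : (ιc → Ω) → ℝ) (nd : α → η) (b0 : ιc) (mv : Option ιc) (x : ιc → Ω) (hx : Θ x ≠ 0) :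
    cw Θ (gl D nd b0 mv) x = cw Θ (fun x => (Xmv D b0 mv x, nd (D.P (x b0)))) x := by
  refine cw_iff Θ _ _ ?_ x hx
  intro x x' _ _
  simp only [gl, Xmv, Prod.mk.injEq]
  tauto

/-- **information of the label about the vertex**: between any two labels `nd0`, `nd1` of the vertex, the first one
finer than the base -/
theorem AR.info (h : AR D l en E) (hm : mass D.μ = 1) (a : ιr) (b0 : ιc) {η0 η1 : Type} (nd0 : α → η0)
    (nd1 : α → η1) (hF : ∀ ω ω', D.μ ω ≠ 0 → D.μ ω' ≠ 0 → nd0 (D.P ω) = nd0 (D.P ω') → D.F ω = D.F ω')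
    (mv : Option ιc) (e3 : ℝ) (he3 : 0 ≤ e3) (h3 : CH D.μ D.z3d D.F ≤ CH D.μ D.zd D.F + e3) :
    CH (push (row en a) l) (Xmv D b0 mv) (fun x => nd0 (D.P (x b0))) -
      CH (push (row en a) l) (Xmv D b0 mv) (fun x => nd1 (D.P (x b0))) ≤ E + N + e3 := by
  set Θ := push (row en a) l with hΘ
  have t0 : ∀ x, 0 ≤ Θ x := Th_nonneg l (row en a) Θ h.nn rfl
  have hmem : ∀ x, Θ x ≠ 0 → D.μ (x b0) ≠ 0 := by
    intro x hx
    obtain ⟨w, hw, rfl⟩ := push_ne (row en a) l x hx
    rw [← h.pu a b0]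
    exact push_supp (en a b0) l h.nn w hw
  have c1 := h.gl_low hm a b0 (fun _ : α => ()) mv e3 he3 h3
  rw [← hΘ] at c1
  have c2 : CH D.μ D.P (fun ω => (D.F ω, ())) = CH D.μ D.P D.F := by
    apply ch_congr_right
    intro ω ω' _ _
    simp
  have c3 : CH Θ (fun x => D.P (x b0)) (gl D (fun _ : α => ()) b0 mv) =
      CH Θ (fun x => D.P (x b0)) (fun x => (Xmv D b0 mv x, D.F (x b0))) := by
    apply ch_congr_right
    intro x x' _ _
    simp only [gl, Xmv, Prod.mk.injEq]
    tauto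
  have c4 : CH Θ (fun x => D.P (x b0)) (fun x => D.F (x b0)) = CH D.μ D.P D.F := by
    rw [hΘ, push_CH (row en a) l h.nn (fun x => D.P (x b0)) (fun x => D.F (x b0))]
    exact h.CH_en a b0 D.P D.F
  have c5 := ch_symm Θ (fun x => D.P (x b0)) (Xmv D b0 mv) (fun x => D.F (x b0))
  have c6 : CH Θ (Xmv D b0 mv) (fun x => nd0 (D.P (x b0))) ≤ CH Θ (Xmv D b0 mv) (fun x => D.F (x b0)) := by
    apply ch_cond Θ t0
    intro x x' hx hx' e
    exact hF _ _ (hmem x hx) (hmem x' hx') e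
  have c7 : CH Θ (Xmv D b0 mv) (fun x => (D.P (x b0), D.F (x b0))) ≤
      CH Θ (Xmv D b0 mv) (fun x => nd1 (D.P (x b0))) := by
    apply ch_cond Θ t0
    intro x x' _ _ e
    exact congrArg nd1 (Prod.ext_iff.1 e).1
  rw [c2, c3] at c1
  rw [c4] at c5
  linarith

/-- the cost of one step of the chain of the array in the form of `windows_close` -/
theorem AR.step_bad (h : AR D l en E) (nd : α → η) (b0 : ιc) (mv : ℕ → Option ιc) (a : ιr) (n i : ℕ) (hi : i < n)
    (W : α → V) (ε : ℝ) :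
    Pw (chl D l en nd b0 mv a n) (fun w => ¬ Cle (cw (chl D l en nd b0 mv a n) (past (row en a) n i) w)
      (fun v => W (D.P (pt (row en a) n (i + 1) v b0)))
      (lw (push (row en a) l) (fun x => nd (D.P (x b0))) (fun x => W (D.P (x b0))) (pt (row en a) n i w)) ε) =
    Pw (push (row en a) l) (fun x => ¬ Cle (cw (push (row en a) l)
      (fun x => (Xmv D b0 (mv i) x, nd (D.P (x b0)))) x) (fun x => W (D.P (x b0)))
      (lw (push (row en a) l) (fun x => nd (D.P (x b0))) (fun x => W (D.P (x b0))) x) ε) := by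
  have h1 := law_bad l (row en a) (push (row en a) l) (fun i => gl D nd b0 (mv i)) h.nn rfl n i hi
    (fun x => W (D.P (x b0)))
    (lw (push (row en a) l) (fun x => nd (D.P (x b0))) (fun x => W (D.P (x b0)))) ε
  refine Eq.trans h1 ?_
  rw [Pw_sum, Pw_sum]
  refine Finset.sum_congr rfl fun x _ => ?_
  by_cases h0 : push (row en a) l x = 0
  · rw [h0, zero_mul, zero_mul]
  · rw [cw_gl (push (row en a) l) nd b0 (mv i) x h0]

end array

end Pool.Agent.Helper25.FA
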