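import Pool.Agent.Helper25.FA.Cnt
import Pool.Agent.Helper61.GL.KRG

/-!
# Edges, arrays, moves (FW, row A1)

`ED` = data of one edge law: base label `F`, vertices `P`, `Q`, centre `z` (real vector), `om P Q`, resolution `n`.
`AR D l en E` = an array of edges `en a b` (rows `a` = left vertices, columns `b` = right vertices) with law `l`:
all entries have the law of the edge, common base and centre, vertex `P` depends on the row only, vertex `Q` on the
column only, and the total entropy is full up to `E`.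
-/

set_option autoImplicit false

namespace Pool.Agent.Helper25.FA

open Finset Pool.Agent.Helper69.RK Pool.Agent.Helper61.GL Pool.Agent.Helper31.EC Pool.Agent.Helper6.VS

/-- data of an edge law -/
structure ED (Ω φ α β : Type) [Fintype Ω] (N : ℕ) where
  μ : Ω → ℝ
  F : Ω → φ
  P : Ω → α
  Q : Ω → β
  z : Ω → Fin N → ℝ
  om : α → β → Fin N → ℝ
  n : ℕ

section ed

variable {Ω φ α β : Type} [Fintype Ω] {N : ℕ}

/-- digits of the centre -/
noncomputable def ED.zd (D : ED Ω φ α β N) : Ω → Fin N → ℤ := fun ω i => fl D.n (D.z ω i)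

/-- the second centre -/
def ED.z3 (D : ED Ω φ α β N) : Ω → Fin N → ℝ := fun ω i => D.z ω i + D.om (D.P ω) (D.Q ω) i

/-- digits of the second centre -/
noncomputable def ED.z3d (D : ED Ω φ α β N) : Ω → Fin N → ℤ := fun ω i => fl D.n (D.z3 ω i)

/-- exchange of the two sides -/
def ED.mir (D : ED Ω φ α β N) : ED Ω φ β α N where
  μ := D.μ
  F := D.F
  P := D.Q
  Q := D.P
  z := D.z
  om := fun b a => D.om a b
  n := D.n

end ed

/-- arrays of edges -/
structure AR {Ω φ α β : Type} [Fintype Ω] {N : ℕ} (D : ED Ω φ α β N) {Λ ιr ιc : Type} [Fintype Λ] [Fintype ιr]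
    [Fintype ιc] (l : Λ → ℝ) (en : ιr → ιc → Λ → Ω) (E : ℝ) : Prop where
  nn : ∀ w, 0 ≤ l w
  pu : ∀ a b, push (en a b) l = D.μ
  sF : ∀ w, l w ≠ 0 → ∀ a b a' b', D.F (en a b w) = D.F (en a' b' w)
  sZ : ∀ w, l w ≠ 0 → ∀ a b a' b', D.zd (en a b w) = D.zd (en a' b' w)
  sP : ∀ w, l w ≠ 0 → ∀ a b b', D.P (en a b w) = D.P (en a b' w)
  sQ : ∀ w, l w ≠ 0 → ∀ a a' b, D.Q (en a b w) = D.Q (en a' b w)
  tot : ∀ a0 b0, CH D.μ D.zd D.F + (Fintype.card ιr) * CH D.μ D.P D.F + (Fintype.card ιc) * CH D.μ D.Q D.F - E ≤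
    CH l (fun w => (((fun a => D.P (en a b0 w)), (fun b => D.Q (en a0 b w))), D.zd (en a0 b0 w)))
      (fun w => D.F (en a0 b0 w))

section ar

variable {Ω φ α β η : Type} [Fintype Ω] {N : ℕ} {D : ED Ω φ α β N} {Λ ιr ιc : Type} [Fintype Λ] [Fintype ιr]
  [Fintype ιc] [DecidableEq ιr] [DecidableEq ιc] {l : Λ → ℝ} {en : ιr → ιc → Λ → Ω} {E : ℝ}

omit [DecidableEq ιr] [DecidableEq ιc] in
/-- exchange of the two sides -/
theorem AR.mir (h : AR D l en E) : AR D.mir l (fun b a => en a b) E where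
  nn := h.nn
  pu := fun a b => h.pu b a
  sF := fun w hw a b a' b' => h.sF w hw b a b' a'
  sZ := fun w hw a b a' b' => h.sZ w hw b a b' a'
  sP := fun w hw a b b' => h.sQ w hw b b' a
  sQ := fun w hw a a' b => h.sP w hw b a a'
  tot := by
    intro b0 a0
    have h1 := h.tot a0 b0
    have h2 : CH l (fun w => (((fun a => D.P (en a b0 w)), (fun b => D.Q (en a0 b w))), D.zd (en a0 b0 w)))
        (fun w => D.F (en a0 b0 w)) =
        CH l (fun w => (((fun b => D.Q (en a0 b w)), (fun a => D.P (en a b0 w))), D.zd (en a0 b0 w)))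
        (fun w => D.F (en a0 b0 w)) := by
      apply ch_congr_left
      intro w w' _ _ _
      simp only [Prod.mk.injEq]
      tauto
    rw [h2] at h1
    have h3 : CH D.mir.μ D.mir.zd D.mir.F + (Fintype.card ιc) * CH D.mir.μ D.mir.P D.mir.F +
        (Fintype.card ιr) * CH D.mir.μ D.mir.Q D.mir.F - E =
        CH D.μ D.zd D.F + (Fintype.card ιr) * CH D.μ D.P D.F + (Fintype.card ιc) * CH D.μ D.Q D.F - E := by
      show CH D.μ D.zd D.F + (Fintype.card ιc) * CH D.μ D.Q D.F + (Fintype.card ιr) * CH D.μ D.P D.F - E = _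
      ring
    rw [h3]
    exact h1

/-- the left vertices with row in `s` -/
def PR (D : ED Ω φ α β N) (en : ιr → ιc → Λ → Ω) (b0 : ιc) (s : Finset ιr) (w : Λ) : {a // a ∈ s} → α :=
  fun a => D.P (en a.1 b0 w)

/-- the right vertices with column in `s` -/
def QC (D : ED Ω φ α β N) (en : ιr → ιc → Λ → Ω) (a0 : ιr) (s : Finset ιc) (w : Λ) : {b // b ∈ s} → β :=
  fun b => D.Q (en a0 b.1 w)

omit [DecidableEq ιr] [DecidableEq ιc] in
theorem AR.CH_en (h : AR D l en E) {χ ψ : Type} (a : ιr) (b : ιc) (X : Ω → χ) (Y : Ω → ψ) :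
    CH l (fun w => X (en a b w)) (fun w => Y (en a b w)) = CH D.μ X Y := by
  rw [← push_CH (en a b) l h.nn X Y, h.pu a b]

omit [DecidableEq ιc] in
/-- upper bound for rows -/
theorem AR.PR_le (h : AR D l en E) {ψ : Type} (a0 : ιr) (b0 : ιc) (s : Finset ιr) (Y : Λ → ψ)
    (hY : ∀ w w', l w ≠ 0 → l w' ≠ 0 → Y w = Y w' → D.F (en a0 b0 w) = D.F (en a0 b0 w')) :
    CH l (PR D en b0 s) Y ≤ s.card * CH D.μ D.P D.F := by
  have h1 := ch_pi_le l h.nn (fun (a : {a // a ∈ s}) w => D.P (en a.1 b0 w)) Y (fun _ g => g)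
  refine le_trans h1 ?_
  have h2 : ∀ a : {a // a ∈ s}, CH l (fun w => D.P (en a.1 b0 w)) (hg (fun _ g => g) Y a) ≤ CH D.μ D.P D.F := by
    intro a
    rw [← h.CH_en a.1 b0 D.P D.F]
    apply ch_cond l h.nn
    intro w w' hw hw' e
    rw [h.sF w hw a.1 b0 a0 b0, h.sF w' hw' a.1 b0 a0 b0]
    exact hY w w' hw hw' e
  refine le_trans (Finset.sum_le_sum fun a _ => h2 a) ?_
  rw [Finset.sum_const, Finset.card_univ, Fintype.card_coe, nsmul_eq_mul]

omit [DecidableEq ιr] in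
/-- upper bound for columns -/
theorem AR.QC_le (h : AR D l en E) {ψ : Type} (a0 : ιr) (b0 : ιc) (s : Finset ιc) (Y : Λ → ψ)
    (hY : ∀ w w', l w ≠ 0 → l w' ≠ 0 → Y w = Y w' → D.F (en a0 b0 w) = D.F (en a0 b0 w')) :
    CH l (QC D en a0 s) Y ≤ s.card * CH D.μ D.Q D.F :=
  h.mir.PR_le b0 a0 s Y hY

omit [DecidableEq ιr] [DecidableEq ιc] in
/-- upper bound for the centre -/
theorem AR.Z_le (h : AR D l en E) {ψ : Type} (a0 : ιr) (b0 : ιc) (Y : Λ → ψ)
    (hY : ∀ w w', l w ≠ 0 → l w' ≠ 0 → Y w = Y w' → D.F (en a0 b0 w) = D.F (en a0 b0 w')) :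
    CH l (fun w => D.zd (en a0 b0 w)) Y ≤ CH D.μ D.zd D.F := by
  rw [← h.CH_en a0 b0 D.zd D.F]
  exact ch_cond l h.nn _ _ _ hY

/-- **sub-totals**: rows in `s`, columns in `t`, centre, given the other vertices -/
theorem AR.low (h : AR D l en E) (a0 : ιr) (b0 : ιc) (s : Finset ιr) (t : Finset ιc) :
    CH D.μ D.zd D.F + s.card * CH D.μ D.P D.F + t.card * CH D.μ D.Q D.F - E ≤
      CH l (fun w => ((PR D en b0 s w, QC D en a0 t w), D.zd (en a0 b0 w)))
        (fun w => ((PR D en b0 sᶜ w, QC D en a0 tᶜ w), D.F (en a0 b0 w))) := by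
  have h1 := h.tot a0 b0
  have c1 := ch_chain l (fun w => (PR D en b0 sᶜ w, QC D en a0 tᶜ w))
    (fun w => ((PR D en b0 s w, QC D en a0 t w), D.zd (en a0 b0 w))) (fun w => D.F (en a0 b0 w))
  have c2 : CH l (fun w => (((fun a => D.P (en a b0 w)), (fun b => D.Q (en a0 b w))), D.zd (en a0 b0 w)))
      (fun w => D.F (en a0 b0 w)) ≤
      CH l (fun w => ((PR D en b0 sᶜ w, QC D en a0 tᶜ w),
        ((PR D en b0 s w, QC D en a0 t w), D.zd (en a0 b0 w)))) (fun w => D.F (en a0 b0 w)) := by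
    apply ch_mono l h.nn
    intro w w' _ _ e _
    simp only [Prod.mk.injEq] at e ⊢
    obtain ⟨⟨e1, e2⟩, ⟨e3, e4⟩, e5⟩ := e
    refine ⟨⟨?_, ?_⟩, e5⟩
    · funext a
      by_cases ha : a ∈ s
      · exact congrFun e3 ⟨a, ha⟩
      · exact congrFun e1 ⟨a, Finset.mem_compl.2 ha⟩
    · funext b
      by_cases hb : b ∈ t
      · exact congrFun e4 ⟨b, hb⟩
      · exact congrFun e2 ⟨b, Finset.mem_compl.2 hb⟩
  have c3 := ch_pair_le l h.nn (PR D en b0 sᶜ) (QC D en a0 tᶜ) (fun w => D.F (en a0 b0 w))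
  have c4 := h.PR_le a0 b0 sᶜ (fun w => D.F (en a0 b0 w)) (fun _ _ _ _ e => e)
  have c5 := h.QC_le a0 b0 tᶜ (fun w => D.F (en a0 b0 w)) (fun _ _ _ _ e => e)
  have k1 : ((sᶜ.card : ℕ) : ℝ) = (Fintype.card ιr : ℝ) - s.card := by
    rw [Finset.card_compl, Nat.cast_sub (Finset.card_le_univ s)]
  have k2 : ((tᶜ.card : ℕ) : ℝ) = (Fintype.card ιc : ℝ) - t.card := by
    rw [Finset.card_compl, Nat.cast_sub (Finset.card_le_univ t)]
  rw [k1] at c4
  rw [k2] at c5
  linarith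

/-- columns are full given everything but the centre -/
theorem AR.QC_low (h : AR D l en E) (a0 : ιr) (b0 : ιc) (t : Finset ιc) :
    t.card * CH D.μ D.Q D.F - E ≤
      CH l (QC D en a0 t) (fun w => ((PR D en b0 univ w, QC D en a0 tᶜ w), D.F (en a0 b0 w))) := by
  have h1 := h.low a0 b0 ∅ t
  rw [Finset.card_empty, Nat.cast_zero, zero_mul, add_zero] at h1
  have c1 := ch_chain l (fun w => (PR D en b0 ∅ w, QC D en a0 t w)) (fun w => D.zd (en a0 b0 w))
    (fun w => ((PR D en b0 ∅ᶜ w, QC D en a0 tᶜ w), D.F (en a0 b0 w)))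
  have c2 := h.Z_le a0 b0 (fun w => ((PR D en b0 ∅ w, QC D en a0 t w),
    ((PR D en b0 ∅ᶜ w, QC D en a0 tᶜ w), D.F (en a0 b0 w)))) (fun _ _ _ _ e => by
      simp only [Prod.mk.injEq] at e
      exact e.2.2)
  have c3 : CH l (fun w => (PR D en b0 ∅ w, QC D en a0 t w))
      (fun w => ((PR D en b0 ∅ᶜ w, QC D en a0 tᶜ w), D.F (en a0 b0 w))) ≤
      CH l (QC D en a0 t) (fun w => ((PR D en b0 univ w, QC D en a0 tᶜ w), D.F (en a0 b0 w))) := by
    rw [Finset.compl_empty]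
    apply ch_mono l h.nn
    intro w w' _ _ e _
    rw [Prod.mk.injEq]
    refine ⟨?_, e⟩
    funext a
    exact absurd a.2 (Finset.notMem_empty a.1)
  linarith

/-- the centre is full given all vertices -/
theorem AR.Z_low (h : AR D l en E) (a0 : ιr) (b0 : ιc) :
    CH D.μ D.zd D.F - E ≤
      CH l (fun w => D.zd (en a0 b0 w))
        (fun w => ((PR D en b0 univ w, QC D en a0 univ w), D.F (en a0 b0 w))) := by
  have h1 := h.low a0 b0 ∅ ∅
  rw [Finset.card_empty, Nat.cast_zero, zero_mul, add_zero, Finset.card_empty, Nat.cast_zero, zero_mul,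
    add_zero, Finset.compl_empty, Finset.compl_empty] at h1
  refine le_trans h1 ?_
  apply ch_mono l h.nn
  intro w w' _ _ e _
  rw [Prod.mk.injEq, Prod.mk.injEq]
  refine ⟨⟨?_, ?_⟩, e⟩
  · funext a
    exact absurd a.2 (Finset.notMem_empty a.1)
  · funext a
    exact absurd a.2 (Finset.notMem_empty a.1)

/-- one row and the centre are full given all columns -/
theorem AR.PZ_low (h : AR D l en E) (a : ιr) (a0 : ιr) (b0 : ιc) :
    CH D.μ D.zd D.F + CH D.μ D.P D.F - E ≤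
      CH l (fun w => (D.zd (en a0 b0 w), D.P (en a b0 w)))
        (fun w => (QC D en a0 univ w, D.F (en a0 b0 w))) := by
  have h1 := h.low a0 b0 {a} ∅
  rw [Finset.card_singleton, Nat.cast_one, one_mul, Finset.card_empty, Nat.cast_zero, zero_mul,
    add_zero, Finset.compl_empty] at h1
  refine le_trans h1 ?_
  have h2 : CH l (fun w => ((PR D en b0 {a} w, QC D en a0 ∅ w), D.zd (en a0 b0 w)))
      (fun w => ((PR D en b0 {a}ᶜ w, QC D en a0 univ w), D.F (en a0 b0 w))) ≤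
      CH l (fun w => (D.zd (en a0 b0 w), D.P (en a b0 w)))
      (fun w => ((PR D en b0 {a}ᶜ w, QC D en a0 univ w), D.F (en a0 b0 w))) := by
    apply ch_mono l h.nn
    intro w w' _ _ e _
    simp only [Prod.mk.injEq] at e ⊢
    refine ⟨⟨?_, ?_⟩, e.1⟩
    · funext x
      have hx : x.1 = a := Finset.mem_singleton.1 x.2
      show D.P (en x.1 b0 w) = D.P (en x.1 b0 w')
      rw [hx]
      exact e.2
    · funext x
      exact absurd x.2 (Finset.notMem_empty x.1)
  refine le_trans h2 ?_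
  apply ch_cond l h.nn
  intro w w' _ _ e
  simp only [Prod.mk.injEq] at e ⊢
  exact ⟨e.1.2, e.2⟩

/-- a row is full given the centre and all columns -/
theorem AR.P_low (h : AR D l en E) (a : ιr) (a0 : ιr) (b0 : ιc) :
    CH D.μ D.P D.F - E ≤
      CH l (fun w => D.P (en a b0 w))
        (fun w => (D.zd (en a0 b0 w), (QC D en a0 univ w, D.F (en a0 b0 w)))) := by
  have h1 := h.PZ_low a a0 b0
  have c1 := ch_chain l (fun w => D.zd (en a0 b0 w)) (fun w => D.P (en a b0 w))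
    (fun w => (QC D en a0 univ w, D.F (en a0 b0 w)))
  have c2 := h.Z_le a0 b0 (fun w => (QC D en a0 univ w, D.F (en a0 b0 w)))
    (fun _ _ _ _ e => (Prod.ext_iff.1 e).2)
  linarith

end ar

end Pool.Agent.Helper25.FA
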