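import Pool.Agent.Helper6.VS.Count

/-!
# Chains of exact copies of any length (FW, row A1)

`l` a law on `Λ`, `r : Λ → St` with `push r l = Θ`, glueing functions `f 0, f 1, ..` on `St`. The chain of length
`n` is the law `law l r Θ f n` on `Lam Λ St n`: the point `0` is `r`, the point `i + 1` is a copy of the point `i`
given `f i`, independent of everything before.
-/

set_option autoImplicit false

namespace Pool.Agent.Helper25.FA

open Finset Pool.Agent.Helper69.RK Pool.Agent.Helper61.GL Pool.Agent.Helper31.EC Pool.Agent.Helper6.VS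

section equiv

variable {Ω Ω' α β γ : Type} [Fintype Ω] [Fintype Ω']

theorem push_apply (π : Ω' → Ω) (ν : Ω' → ℝ) (ω : Ω) :
    push π ν ω = ∑ x, e1_ind (π x = ω) * ν x := push_ind π ν ω

theorem push_equiv (e : Ω' ≃ Ω) (μ : Ω → ℝ) : push e (fun w => μ (e w)) = μ := by
  funext ω
  rw [push_ind, Finset.sum_eq_single (e.symm ω)]
  · rw [e.apply_symm_apply, e1_ind_pos rfl, one_mul]
  · intro b _ hb
    rw [e1_ind_neg, zero_mul]
    intro h
    apply hb
    rw [← h, e.symm_apply_apply]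
  · intro h
    exact absurd (Finset.mem_univ _) h

theorem CH_equiv (e : Ω' ≃ Ω) (μ : Ω → ℝ) (h0 : ∀ ω, 0 ≤ μ ω) (f : Ω → α) (g : Ω → β) :
    CH (fun w => μ (e w)) (fun w => f (e w)) (fun w => g (e w)) = CH μ f g := by
  rw [← push_CH e (fun w => μ (e w)) (fun w => h0 _), push_equiv]

end equiv

section step

variable {Λ St κ α β γ : Type} [Fintype Λ] [Fintype St]

/-- one more point: a copy of `r w` given `f` -/
noncomputable def ex (l : Λ → ℝ) (r : Λ → St) (Θ : St → ℝ) (f : St → κ) : Λ × St → ℝ :=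
  fun w => l w.1 * cw Θ f (r w.1) w.2

theorem ex_amw (l : Λ → ℝ) (r : Λ → St) (Θ : St → ℝ) (f : St → κ) (w : Λ × St) :
    ex l r Θ f w = amw Θ l f (fun v => f (r v)) (w.2, w.1) := by
  unfold ex amw cw
  rw [pr_eq_ms]
  by_cases h : f w.2 = f (r w.1)
  · rw [if_pos h, e1_ind_pos h]
    show _ = 1 * (Θ w.2 * l w.1 / ms Θ f (f w.2))
    rw [h]
    ring
  · rw [if_neg h, e1_ind_neg h]
    ring

theorem ex_eq (l : Λ → ℝ) (r : Λ → St) (Θ : St → ℝ) (f : St → κ) :
    ex l r Θ f = fun w => amw Θ l f (fun v => f (r v)) (Equiv.prodComm Λ St w) := by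
  funext w
  rw [ex_amw]
  rfl

variable (l : Λ → ℝ) (r : Λ → St) (Θ : St → ℝ) (f : St → κ) (hl : ∀ w, 0 ≤ l w) (hr : push r l = Θ)
include hl hr

theorem Th_nonneg (s : St) : 0 ≤ Θ s := by
  rw [← hr, push_ind]
  exact Finset.sum_nonneg fun x _ => mul_nonneg (ind_nonneg _) (hl x)

theorem Th_ne (w : Λ) (h : l w ≠ 0) : Θ (r w) ≠ 0 := by
  rw [← hr]
  exact push_supp r l hl w h

theorem ms_ex (a : κ) : ms Θ f a = ms l (fun v => f (r v)) a := by
  rw [← hr]
  exact (ms_push r l f a).symm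

theorem ex_nonneg (w : Λ × St) : 0 ≤ ex l r Θ f w :=
  mul_nonneg (hl _) (cw_nonneg Θ f (Th_nonneg l r Θ hl hr) _ _)

omit hl hr in
theorem ex_supp (w : Λ × St) (h : ex l r Θ f w ≠ 0) : l w.1 ≠ 0 ∧ Θ w.2 ≠ 0 ∧ f w.2 = f (r w.1) := by
  have h1 : l w.1 ≠ 0 := fun e => h (by unfold ex; rw [e, zero_mul])
  have h2 : cw Θ f (r w.1) w.2 ≠ 0 := fun e => h (by unfold ex; rw [e, mul_zero])
  obtain ⟨a, b⟩ := cw_ne_zero Θ f h2
  exact ⟨h1, b, a⟩

theorem ex_fst : push Prod.fst (ex l r Θ f) = l := by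
  have h1 := amw_push_snd Θ l f (fun v => f (r v)) (ms_ex l r Θ f hl hr) hl
  have h2 := push_equiv (Equiv.prodComm Λ St) (amw Θ l f (fun v => f (r v)))
  rw [← ex_eq] at h2
  rw [← h2, push_push] at h1
  exact h1

theorem ex_snd : push Prod.snd (ex l r Θ f) = Θ := by
  have h1 := amw_push_fst Θ l f (fun v => f (r v)) (ms_ex l r Θ f hl hr) (Th_nonneg l r Θ hl hr)
  have h2 := push_equiv (Equiv.prodComm Λ St) (amw Θ l f (fun v => f (r v)))
  rw [← ex_eq] at h2
  rw [← h2, push_push] at h1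
  exact h1

theorem ex_CH_fst (X : Λ → α) (Y : Λ → β) :
    CH (ex l r Θ f) (fun w => X w.1) (fun w => Y w.1) = CH l X Y := by
  rw [← push_CH Prod.fst (ex l r Θ f) (ex_nonneg l r Θ f hl hr) X Y, ex_fst l r Θ f hl hr]

theorem ex_CH_snd (X : St → α) (Y : St → β) :
    CH (ex l r Θ f) (fun w => X w.2) (fun w => Y w.2) = CH Θ X Y := by
  rw [← push_CH Prod.snd (ex l r Θ f) (ex_nonneg l r Θ f hl hr) X Y, ex_snd l r Θ f hl hr]

/-- the new point is independent of the past given `f` -/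
theorem ex_CH (X : St → α) (Y : Λ → β) :
    CH (ex l r Θ f) (fun w => X w.2) (fun w => (Y w.1, f (r w.1))) = CH Θ X f := by
  have h1 := amw_CH Θ l f (fun v => f (r v)) (ms_ex l r Θ f hl hr) (Th_nonneg l r Θ hl hr) hl X Y
  have h2 := CH_equiv (Equiv.prodComm Λ St) (amw Θ l f (fun v => f (r v)))
    (amw_nonneg _ _ _ _ (Th_nonneg l r Θ hl hr) hl) (fun v => X v.1) (fun v => (Y v.2, f v.1))
  rw [← ex_eq, h1] at h2
  rw [← h2]
  apply ch_congr_right
  intro w w' h h'
  obtain ⟨-, -, a⟩ := ex_supp l r Θ f w h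
  obtain ⟨-, -, a'⟩ := ex_supp l r Θ f w' h'
  show (Y w.1, f (r w.1)) = (Y w'.1, f (r w'.1)) ↔ (Y w.1, f w.2) = (Y w'.1, f w'.2)
  rw [a, a']

end step

/-! ### chains -/

/-- the space of chains -/
def Lam (Λ St : Type) : ℕ → Type
  | 0 => Λ
  | n + 1 => Lam Λ St n × St

noncomputable instance instLam (Λ St : Type) [Fintype Λ] [Fintype St] : (n : ℕ) → Fintype (Lam Λ St n)
  | 0 => (inferInstance : Fintype Λ)
  | n + 1 => by
    haveI := instLam Λ St n
    exact (inferInstance : Fintype (Lam Λ St n × St))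

section chain

variable {Λ St κ α β γ : Type} [Fintype Λ] [Fintype St]

/-- the last point -/
def cur (r : Λ → St) : (n : ℕ) → Lam Λ St n → St
  | 0 => r
  | _ + 1 => fun w => w.2

/-- the base -/
def bs : (n : ℕ) → Lam Λ St n → Λ
  | 0 => fun w => w
  | n + 1 => fun w => bs n w.1

/-- the point `i` (`i ≤ n`) -/
def pt (r : Λ → St) : (n : ℕ) → ℕ → Lam Λ St n → St
  | 0, _ => r
  | n + 1, i => fun w => if i = n + 1 then w.2 else pt r n i w.1

/-- the law of the chain -/
noncomputable def law (l : Λ → ℝ) (r : Λ → St) (Θ : St → ℝ) (f : ℕ → St → κ) : (n : ℕ) → Lam Λ St n → ℝ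
  | 0 => l
  | n + 1 => ex (law l r Θ f n) (cur r n) Θ (f n)

omit [Fintype Λ] [Fintype St] in
theorem pt_last (r : Λ → St) (n : ℕ) (w : Lam Λ St n) : pt r n n w = cur r n w := by
  cases n with
  | zero => rfl
  | succ n => exact if_pos rfl

omit [Fintype Λ] [Fintype St] in
theorem pt_succ (r : Λ → St) (n i : ℕ) (h : i ≤ n) (w : Lam Λ St (n + 1)) :
    pt r (n + 1) i w = pt r n i w.1 := if_neg (by omega)

omit [Fintype Λ] [Fintype St] in
theorem pt_zero (r : Λ → St) (n : ℕ) (w : Lam Λ St n) : pt r n 0 w = r (bs n w) := by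
  induction n with
  | zero => rfl
  | succ n ih =>
    rw [pt_succ r n 0 (Nat.zero_le n) w, ih]
    rfl

variable (l : Λ → ℝ) (r : Λ → St) (Θ : St → ℝ) (f : ℕ → St → κ) (hl : ∀ w, 0 ≤ l w) (hr : push r l = Θ)
include hl hr

theorem law_aux (n : ℕ) : (∀ w, 0 ≤ law l r Θ f n w) ∧ push (cur r n) (law l r Θ f n) = Θ := by
  induction n with
  | zero => exact ⟨hl, hr⟩
  | succ n ih => exact ⟨ex_nonneg _ _ _ _ ih.1 ih.2, ex_snd _ _ _ _ ih.1 ih.2⟩

theorem law_nonneg (n : ℕ) (w : Lam Λ St n) : 0 ≤ law l r Θ f n w := (law_aux l r Θ f hl hr n).1 w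

theorem law_cur (n : ℕ) : push (cur r n) (law l r Θ f n) = Θ := (law_aux l r Θ f hl hr n).2

theorem law_bs (n : ℕ) : push (bs n) (law l r Θ f n) = l := by
  induction n with
  | zero =>
    have h := push_equiv (Equiv.refl Λ) l
    exact h
  | succ n ih =>
    have h := ex_fst (law l r Θ f n) (cur r n) Θ (f n) (law_nonneg l r Θ f hl hr n) (law_cur l r Θ f hl hr n)
    have h2 := push_push (bs n) Prod.fst (law l r Θ f (n + 1))
    have h3 : push Prod.fst (law l r Θ f (n + 1)) = law l r Θ f n := h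
    rw [h3, ih] at h2
    exact h2.symm

theorem law_pt (n i : ℕ) (h : i ≤ n) : push (pt r n i) (law l r Θ f n) = Θ := by
  induction n with
  | zero => exact hr
  | succ n ih =>
    rcases Nat.lt_or_ge n i with h1 | h1
    · have h2 : i = n + 1 := by omega
      subst h2
      have h3 : pt r (n + 1) (n + 1) = cur r (n + 1) := funext fun w => pt_last r (n + 1) w
      rw [h3]
      exact law_cur l r Θ f hl hr (n + 1)
    · have h4 := ex_fst (law l r Θ f n) (cur r n) Θ (f n) (law_nonneg l r Θ f hl hr n) (law_cur l r Θ f hl hr n)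
      have h2 := push_push (pt r n i) Prod.fst (law l r Θ f (n + 1))
      have h3 : push Prod.fst (law l r Θ f (n + 1)) = law l r Θ f n := h4
      rw [h3, ih h1] at h2
      have h5 : pt r (n + 1) i = fun w => pt r n i w.1 := funext fun w => pt_succ r n i h1 w
      rw [h5]
      exact h2.symm

theorem law_mass (n : ℕ) : mass (law l r Θ f n) = mass l := by
  rw [← push_mass (bs n) _ (law_nonneg l r Θ f hl hr n), law_bs l r Θ f hl hr]

theorem law_supp (n : ℕ) (w : Lam Λ St n) (h : law l r Θ f n w ≠ 0) :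
    l (bs n w) ≠ 0 ∧ (∀ i ≤ n, Θ (pt r n i w) ≠ 0) ∧
      ∀ i < n, f i (pt r n (i + 1) w) = f i (pt r n i w) := by
  induction n with
  | zero =>
    refine ⟨h, fun i _ => ?_, fun i hi => absurd hi (Nat.not_lt_zero i)⟩
    exact Th_ne l r Θ hl hr w h
  | succ n ih =>
    obtain ⟨a, b, c⟩ := ex_supp _ _ _ _ w h
    obtain ⟨h1, h2, h3⟩ := ih w.1 a
    refine ⟨h1, ?_, ?_⟩
    · intro i hi
      rcases Nat.lt_or_ge n i with h4 | h4
      · have h5 : i = n + 1 := by omega
        subst h5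
        rw [pt_last]
        exact b
      · rw [pt_succ r n i h4 w]
        exact h2 i h4
    · intro i hi
      rcases Nat.lt_or_ge i n with h4 | h4
      · rw [pt_succ r n i (by omega) w, pt_succ r n (i + 1) (by omega) w]
        exact h3 i h4
      · have h5 : i = n := by omega
        subst h5
        rw [pt_last, pt_succ r i i le_rfl w, pt_last]
        exact c

theorem law_CH_bs (n : ℕ) (X : Λ → α) (Y : Λ → β) :
    CH (law l r Θ f n) (fun w => X (bs n w)) (fun w => Y (bs n w)) = CH l X Y := by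
  rw [← push_CH (bs n) (law l r Θ f n) (law_nonneg l r Θ f hl hr n) X Y, law_bs l r Θ f hl hr]

theorem law_CH_pt (n i : ℕ) (h : i ≤ n) (X : St → α) (Y : St → β) :
    CH (law l r Θ f n) (fun w => X (pt r n i w)) (fun w => Y (pt r n i w)) = CH Θ X Y := by
  rw [← push_CH (pt r n i) (law l r Θ f n) (law_nonneg l r Θ f hl hr n) X Y, law_pt l r Θ f hl hr n i h]

/-- functions of a prefix of the chain -/
theorem law_CH_pre (n : ℕ) (X : Lam Λ St n → α) (Y : Lam Λ St n → β) :
    CH (law l r Θ f (n + 1)) (fun w : Lam Λ St (n + 1) => X w.1) (fun w : Lam Λ St (n + 1) => Y w.1) =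
      CH (law l r Θ f n) X Y :=
  ex_CH_fst _ _ _ _ (law_nonneg l r Θ f hl hr n) (law_cur l r Θ f hl hr n) X Y

/-- the new point is independent of the past given `f n` -/
theorem law_CH_new (n : ℕ) (X : St → α) (Y : Lam Λ St n → β) :
    CH (law l r Θ f (n + 1)) (fun w : Lam Λ St (n + 1) => X w.2)
      (fun w : Lam Λ St (n + 1) => (Y w.1, f n (cur r n w.1))) = CH Θ X (f n) :=
  ex_CH _ _ _ _ (law_nonneg l r Θ f hl hr n) (law_cur l r Θ f hl hr n) X Y

end chain

end Pool.Agent.Helper25.FA
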