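import Pool.Agent.Helper25.FA.Pow

/-!
# Counts along a chain of exact copies (FW, row A1)

`Z, P : St → _` labels of the states (centre and moving vertex), `X, R` labels of the base. If every step has
`L ≤ H(P | f i)`, if the centre of the old point is known up to `c1` bits from the new one and both vertices, and
if `H(P | g0) ≤ U`, `H(Z | g0) ≤ hz` for a label `g0` preserved by the chain, then
`H(X | end centre, all points, R) ≥ H(X | R) + H(Z_0 | X, R) - hz - n (U - L + c1)`.
-/

set_option autoImplicit false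

namespace Pool.Agent.Helper25.FA

open Finset Pool.Agent.Helper69.RK Pool.Agent.Helper61.GL Pool.Agent.Helper31.EC Pool.Agent.Helper6.VS

variable {Λ St κ α β γ δ ζ ρ χ : Type} [Fintype Λ] [Fintype St]

/-- the labels of the points `1, .., n` -/
def tp (r : Λ → St) (P : St → α) (n : ℕ) (w : Lam Λ St n) : Fin n → α := fun i => P (pt r n (i.1 + 1) w)

omit [Fintype Λ] [Fintype St] in
theorem tp_succ (r : Λ → St) (P : St → α) (n : ℕ) (w w' : Lam Λ St (n + 1)) :
    tp r P (n + 1) w = tp r P (n + 1) w' ↔ tp r P n w.1 = tp r P n w'.1 ∧ P w.2 = P w'.2 := by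
  constructor
  · intro h
    refine ⟨?_, ?_⟩
    · funext i
      have h1 := congrFun h i.castSucc
      have h2 : pt r (n + 1) (i.1 + 1) w = pt r n (i.1 + 1) w.1 := pt_succ r n _ i.2 w
      have h3 : pt r (n + 1) (i.1 + 1) w' = pt r n (i.1 + 1) w'.1 := pt_succ r n _ i.2 w'
      show P (pt r n (i.1 + 1) w.1) = P (pt r n (i.1 + 1) w'.1)
      rw [← h2, ← h3]
      exact h1
    · have h1 := congrFun h (Fin.last n)
      have h2 : ∀ v : Lam Λ St (n + 1), pt r (n + 1) ((Fin.last n).1 + 1) v = v.2 := fun v => pt_last r (n + 1) v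
      have h3 : P (pt r (n + 1) ((Fin.last n).1 + 1) w) = P (pt r (n + 1) ((Fin.last n).1 + 1) w') := h1
      rw [h2, h2] at h3
      exact h3
  · rintro ⟨h1, h2⟩
    funext i
    show P (pt r (n + 1) (i.1 + 1) w) = P (pt r (n + 1) (i.1 + 1) w')
    rcases Nat.lt_or_ge i.1 n with hi | hi
    · rw [pt_succ r n _ hi w, pt_succ r n _ hi w']
      exact congrFun h1 ⟨i.1, hi⟩
    · have h3 : i.1 = n := by omega
      have h4 : ∀ v : Lam Λ St (n + 1), pt r (n + 1) (i.1 + 1) v = v.2 := by
        intro v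
        rw [h3]
        exact pt_last r (n + 1) v
      rw [h4, h4]
      exact h2

omit [Fintype Λ] [Fintype St] in
/-- the label of the last point is a function of the labels of the points and of the start -/
theorem tp_cur (r : Λ → St) (P : St → α) (n : ℕ) (w w' : Lam Λ St n) (h : tp r P n w = tp r P n w')
    (h0 : P (r (bs n w)) = P (r (bs n w'))) : P (cur r n w) = P (cur r n w') := by
  cases n with
  | zero => exact h0
  | succ n => exact ((tp_succ r P n w w').1 h).2

variable (l : Λ → ℝ) (r : Λ → St) (Θ : St → ℝ) (f : ℕ → St → κ) (hl : ∀ w, 0 ≤ l w) (hr : push r l = Θ)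
include hl hr

/-- lower bound for the entropy of the chain -/
theorem chain_low (P : St → α) (Z : St → ζ) (R : Λ → ρ) (L c1 : ℝ)
    (hRP : ∀ w w', l w ≠ 0 → l w' ≠ 0 → R w = R w' → P (r w) = P (r w'))
    (hL : ∀ i, L ≤ CH Θ P (f i))
    (hinv : ∀ n, CH (law l r Θ f (n + 1)) (fun w : Lam Λ St (n + 1) => Z (cur r n w.1))
      (fun w : Lam Λ St (n + 1) => ((Z w.2, (P w.2, P (cur r n w.1))), R (bs n w.1))) ≤ c1) (n : ℕ) :
    CH l (fun w => Z (r w)) R + n * (L - c1) ≤
      CH (law l r Θ f n) (fun w => (Z (cur r n w), tp r P n w)) (fun w => R (bs n w)) := by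
  induction n with
  | zero =>
    rw [Nat.cast_zero, zero_mul, add_zero]
    apply le_of_eq
    show CH l (fun w => Z (r w)) R = CH l (fun w => (Z (r w), tp r P 0 w)) R
    apply ch_congr_left
    intro w w' _ _ _
    rw [Prod.mk.injEq]
    exact ⟨fun e => ⟨e, funext fun i => i.elim0⟩, fun e => e.1⟩
  | succ n ih =>
    set ν := law l r Θ f (n + 1) with hν
    have n0 : ∀ w, 0 ≤ ν w := law_nonneg l r Θ f hl hr (n + 1)
    have supp := fun w : Lam Λ St (n + 1) => law_supp l r Θ f hl hr (n + 1) w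
    have lsup : ∀ w : Lam Λ St (n + 1), ν w ≠ 0 → l (bs n w.1) ≠ 0 := fun w h => (supp w h).1
    set Zn : Lam Λ St (n + 1) → ζ := fun w => Z (cur r n w.1) with hZn
    set Zw : Lam Λ St (n + 1) → ζ := fun w => Z w.2 with hZw
    set Tn : Lam Λ St (n + 1) → (Fin n → α) := fun w => tp r P n w.1 with hTn
    set Pw : Lam Λ St (n + 1) → α := fun w => P w.2 with hPw
    set Rn : Lam Λ St (n + 1) → ρ := fun w => R (bs n w.1) with hRn
    -- the target
    have a1 : CH ν (fun w => (Z (cur r (n + 1) w), tp r P (n + 1) w)) (fun w => R (bs (n + 1) w)) =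
        CH ν (fun w => (Zw w, (Tn w, Pw w))) Rn := by
      apply ch_congr_left
      intro w w' _ _ _
      rw [Prod.mk.injEq, Prod.mk.injEq, Prod.mk.injEq, tp_succ]
      exact Iff.rfl
    -- replace the new centre by the old one
    have a2 : CH ν (fun w => (Zn w, (Tn w, Pw w))) Rn ≤
        CH ν (fun w => (Zw w, (Tn w, Pw w))) Rn + c1 := by
      have b1 := ch_tri ν n0 (fun w => (Zn w, (Tn w, Pw w))) (fun w => (Zw w, (Tn w, Pw w))) Rn
      have b2 : CH ν (fun w => (Zn w, (Tn w, Pw w))) (fun w => ((Zw w, (Tn w, Pw w)), Rn w)) ≤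
          CH ν Zn (fun w => ((Zw w, (Tn w, Pw w)), Rn w)) := by
        apply ch_mono ν n0
        intro w w' _ _ e1 e2
        simp only [Prod.mk.injEq] at e2 ⊢
        exact ⟨e1, e2.1.2.1, e2.1.2.2⟩
      have b3 : CH ν Zn (fun w => ((Zw w, (Tn w, Pw w)), Rn w)) ≤
          CH ν Zn (fun w => ((Z w.2, (P w.2, P (cur r n w.1))), R (bs n w.1))) := by
        apply ch_cond ν n0
        intro w w' h h' e
        simp only [Prod.mk.injEq] at e ⊢
        refine ⟨⟨e.1.1, e.1.2.2, ?_⟩, e.2⟩
        exact tp_cur r P n w.1 w'.1 e.1.2.1 (hRP _ _ (lsup w h) (lsup w' h') e.2)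
      have b4 := hinv n
      linarith
    -- the new point is fresh
    have a3 := ch_chain ν (fun w => (Zn w, Tn w)) Pw Rn
    have a4 : CH ν (fun w => ((Zn w, Tn w), Pw w)) Rn = CH ν (fun w => (Zn w, (Tn w, Pw w))) Rn := by
      apply ch_congr_left
      intro w w' _ _ _
      simp only [Prod.mk.injEq]
      tauto
    have a5 : CH ν (fun w => (Zn w, Tn w)) Rn =
        CH (law l r Θ f n) (fun w => (Z (cur r n w), tp r P n w)) (fun w => R (bs n w)) :=
      law_CH_pre l r Θ f hl hr n (fun w => (Z (cur r n w), tp r P n w)) (fun w => R (bs n w))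
    have a6 : L ≤ CH ν Pw (fun w => ((Zn w, Tn w), Rn w)) := by
      have b1 := law_CH_new l r Θ f hl hr n P
        (fun w => ((Z (cur r n w), tp r P n w), R (bs n w)))
      have b2 : CH ν Pw (fun w => (((Zn w, Tn w), Rn w), f n (cur r n w.1))) ≤
          CH ν Pw (fun w => ((Zn w, Tn w), Rn w)) := by
        apply ch_cond ν n0
        intro w w' _ _ e
        exact (Prod.ext_iff.1 e).1
      have b3 := hL n
      rw [← b1] at b3
      exact le_trans b3 b2
    have a7 : (((n + 1 : ℕ) : ℝ)) * (L - c1) = n * (L - c1) + (L - c1) := by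
      push_cast
      ring
    rw [a1, a7]
    linarith

/-- upper bound for the entropy of the chain -/
theorem chain_up (P : St → α) (Z : St → ζ) (R : Λ → ρ) (g0 : St → γ) (U hz : ℝ)
    (hf : ∀ i x x', Θ x ≠ 0 → Θ x' ≠ 0 → f i x = f i x' → g0 x = g0 x')
    (hRg : ∀ w w', l w ≠ 0 → l w' ≠ 0 → R w = R w' → g0 (r w) = g0 (r w'))
    (hU : CH Θ P g0 ≤ U) (hZ : CH Θ Z g0 ≤ hz) (n : ℕ) :
    CH (law l r Θ f n) (fun w => (Z (cur r n w), tp r P n w)) (fun w => R (bs n w)) ≤ hz + n * U := by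
  set ν := law l r Θ f n with hν
  have n0 : ∀ w, 0 ≤ ν w := law_nonneg l r Θ f hl hr n
  have supp := fun w : Lam Λ St n => law_supp l r Θ f hl hr n w
  -- the label `g0` is constant along the chain
  have c0 : ∀ w, ν w ≠ 0 → ∀ i, i ≤ n → g0 (pt r n i w) = g0 (r (bs n w)) := by
    intro w h i
    obtain ⟨-, h2, h3⟩ := supp w h
    induction i with
    | zero =>
      intro _
      rw [pt_zero]
    | succ i ih =>
      intro hi
      rw [← ih (by omega)]
      exact hf i _ _ (h2 (i + 1) hi) (h2 i (by omega)) (h3 i (by omega))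
  have c1 : ∀ w w', ν w ≠ 0 → ν w' ≠ 0 → R (bs n w) = R (bs n w') → ∀ i, i ≤ n →
      g0 (pt r n i w) = g0 (pt r n i w') := by
    intro w w' h h' e i hi
    rw [c0 w h i hi, c0 w' h' i hi]
    exact hRg _ _ (supp w h).1 (supp w' h').1 e
  have d1 := ch_pair_le ν n0 (fun w => Z (cur r n w)) (tp r P n) (fun w => R (bs n w))
  have d2 : CH ν (fun w => Z (cur r n w)) (fun w => R (bs n w)) ≤ hz := by
    have e1 : CH ν (fun w => Z (pt r n n w)) (fun w => R (bs n w)) ≤
        CH ν (fun w => Z (pt r n n w)) (fun w => g0 (pt r n n w)) := by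
      apply ch_cond ν n0
      intro w w' h h' e
      exact c1 w w' h h' e n le_rfl
    rw [law_CH_pt l r Θ f hl hr n n le_rfl Z g0] at e1
    have e2 : (fun w => Z (cur r n w)) = fun w => Z (pt r n n w) := funext fun w => by rw [pt_last]
    rw [e2]
    exact le_trans e1 hZ
  have d3 : CH ν (tp r P n) (fun w => R (bs n w)) ≤ n * U := by
    have e1 := ch_pi_le ν n0 (fun (i : Fin n) w => P (pt r n (i.1 + 1) w)) (fun w => R (bs n w))
      (fun _ g => g)
    refine le_trans e1 ?_
    have e2 : ∀ i : Fin n, CH ν (fun w => P (pt r n (i.1 + 1) w)) (hg (fun _ g => g) (fun w => R (bs n w)) i) ≤ U := by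
      intro i
      have e3 : CH ν (fun w => P (pt r n (i.1 + 1) w)) (hg (fun _ g => g) (fun w => R (bs n w)) i) ≤
          CH ν (fun w => P (pt r n (i.1 + 1) w)) (fun w => g0 (pt r n (i.1 + 1) w)) := by
        apply ch_cond ν n0
        intro w w' h h' e
        exact c1 w w' h h' e (i.1 + 1) i.2
      rw [law_CH_pt l r Θ f hl hr n (i.1 + 1) i.2 P g0] at e3
      exact le_trans e3 hU
    refine le_trans (Finset.sum_le_sum fun i _ => e2 i) ?_
    rw [Finset.sum_const, Finset.card_univ, Fintype.card_fin, nsmul_eq_mul]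
  linarith

/-- **count** -/
theorem chain_count (P : St → α) (Z : St → ζ) (X : Λ → χ) (R : Λ → ρ) (g0 : St → γ) (L c1 U hz : ℝ)
    (hRP : ∀ w w', l w ≠ 0 → l w' ≠ 0 → R w = R w' → P (r w) = P (r w'))
    (hL : ∀ i, L ≤ CH Θ P (f i))
    (hinv : ∀ n, CH (law l r Θ f (n + 1)) (fun w : Lam Λ St (n + 1) => Z (cur r n w.1))
      (fun w : Lam Λ St (n + 1) => ((Z w.2, (P w.2, P (cur r n w.1))), (X (bs n w.1), R (bs n w.1)))) ≤ c1)
    (hf : ∀ i x x', Θ x ≠ 0 → Θ x' ≠ 0 → f i x = f i x' → g0 x = g0 x')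
    (hRg : ∀ w w', l w ≠ 0 → l w' ≠ 0 → R w = R w' → g0 (r w) = g0 (r w'))
    (hU : CH Θ P g0 ≤ U) (hZ : CH Θ Z g0 ≤ hz) (n : ℕ) :
    CH l X R + CH l (fun w => Z (r w)) (fun w => (X w, R w)) - hz - n * (U - L + c1) ≤
      CH (law l r Θ f n) (fun w => X (bs n w))
        (fun w => ((Z (cur r n w), tp r P n w), R (bs n w))) := by
  have h1 := chain_low l r Θ f hl hr P Z (fun w => (X w, R w)) L c1
    (fun w w' h h' e => hRP w w' h h' (Prod.ext_iff.1 e).2) hL hinv n
  have h2 := chain_up l r Θ f hl hr P Z R g0 U hz hf hRg hU hZ n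
  have h3 := law_CH_bs l r Θ f hl hr n X R
  have h4 := ch_symm (law l r Θ f n) (fun w => X (bs n w)) (fun w => (Z (cur r n w), tp r P n w))
    (fun w => R (bs n w))
  have h5 : (n : ℝ) * (U - L + c1) = n * U - n * (L - c1) := by ring
  rw [h5]
  linarith

end Pool.Agent.Helper25.FA
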