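import Pool.Agent.Helper25.FA.Mov

/-!
# The count and the walk for chains of an array (FW, row A1)
-/

set_option autoImplicit false

namespace Pool.Agent.Helper25.FA

open Finset Pool.Agent.Helper69.RK Pool.Agent.Helper61.GL Pool.Agent.Helper31.EC Pool.Agent.Helper6.VS

variable {Ω φ α β η τ : Type} [Fintype Ω] {N : ℕ} {D : ED Ω φ α β N} {Λ ιr ιc : Type} [Fintype Λ] [Fintype ιr]
  [Fintype ιc] [DecidableEq ιr] [DecidableEq ιc] {l : Λ → ℝ} {en : ιr → ιc → Λ → Ω} {E : ℝ}

/-- the contribution of one step to the walk -/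
def dz (D : ED Ω φ α β N) (b0 : ιc) (mv : Option ιc) (x x' : ιc → Ω) : Fin N → ℝ := fun i =>
  match mv with
  | none => 0
  | some c => D.om (D.P (x' b0)) (D.Q (x c)) i - D.om (D.P (x b0)) (D.Q (x c)) i

theorem AR.step' (h : AR D l en E) (nd : α → η) (b0 : ιc) (mv : Option ιc) (a : ιr) (x x' : ιc → Ω)
    (hx : push (row en a) l x ≠ 0) (hx' : push (row en a) l x' ≠ 0) (hg : gl D nd b0 mv x' = gl D nd b0 mv x)
    (i : Fin N) : |D.z (x b0) i - (D.z (x' b0) i + dz D b0 mv x x' i)| * 2 ^ D.n < 3 := by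
  have h1 := h.step nd b0 mv a x x' hx hx' hg i
  cases mv with
  | none => exact h1
  | some c => exact h1

/-- the old centre is known from the new one and the vertices -/
theorem AR.inv (h : AR D l en E) (hm : mass D.μ = 1) (nd : α → η) (b0 : ιc) (mv : ℕ → Option ιc) (a : ιr)
    {ρ : Type} (R : Λ → ρ)
    (hR : ∀ w w', l w ≠ 0 → l w' ≠ 0 → R w = R w' → ∀ b, D.Q (en a b w) = D.Q (en a b w')) (n : ℕ) :
    CH (chl D l en nd b0 mv a (n + 1)) (fun w : Lam Λ (ιc → Ω) (n + 1) => D.zd (cur (row en a) n w.1 b0))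
      (fun w : Lam Λ (ιc → Ω) (n + 1) => ((D.zd (w.2 b0), (D.P (w.2 b0), D.P (cur (row en a) n w.1 b0))),
        R (bs n w.1))) ≤ 3 * N := by
  set ν := chl D l en nd b0 mv a (n + 1) with hν
  have n0 : ∀ w, 0 ≤ ν w := law_nonneg l (row en a) _ _ h.nn rfl (n + 1)
  have hmν : mass ν = 1 := by
    rw [hν]
    unfold chl
    rw [law_mass l (row en a) _ _ h.nn rfl, ← push_mass (en a b0) l h.nn, h.pu a b0, hm]
  have h1 := ch_vec ν n0 (fun w : Lam Λ (ιc → Ω) (n + 1) => D.zd (cur (row en a) n w.1 b0))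
    (fun w : Lam Λ (ιc → Ω) (n + 1) => ((D.zd (w.2 b0), (D.P (w.2 b0), D.P (cur (row en a) n w.1 b0))),
        R (bs n w.1))) 7 (by
    intro w w' hw hw' e i
    simp only [Prod.mk.injEq] at e
    obtain ⟨⟨e1, e2, e3⟩, e4⟩ := e
    -- supports
    have key : ∀ v : Lam Λ (ιc → Ω) (n + 1), ν v ≠ 0 →
        push (row en a) l (cur (row en a) n v.1) ≠ 0 ∧ push (row en a) l v.2 ≠ 0 ∧
        gl D nd b0 (mv n) v.2 = gl D nd b0 (mv n) (cur (row en a) n v.1) ∧
        (∀ b, D.Q (cur (row en a) n v.1 b) = D.Q (en a b (bs n v.1))) := by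
      intro v hv
      obtain ⟨s1, s2, s3⟩ := law_supp l (row en a) _ (fun i => gl D nd b0 (mv i)) h.nn rfl (n + 1) v hv
      have s4 := s2 n (by omega)
      have s5 := s2 (n + 1) le_rfl
      have s6 := s3 n (by omega)
      have t1 : pt (row en a) (n + 1) n v = cur (row en a) n v.1 := by
        rw [pt_succ _ _ _ le_rfl, pt_last]
      have t2 : pt (row en a) (n + 1) (n + 1) v = v.2 := pt_last (row en a) (n + 1) v
      have s7 := h.const nd b0 mv a (n + 1) v hv n (by omega)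
      rw [t1] at s4 s6 s7
      rw [t2] at s5 s6
      exact ⟨s4, s5, s6, fun b => congrFun (Prod.ext_iff.1 s7).2 b⟩
    obtain ⟨a1, a2, a3, a4⟩ := key w hw
    obtain ⟨b1, b2, b3, b4⟩ := key w' hw'
    have l1 : l (bs n w.1) ≠ 0 := (law_supp l (row en a) _ _ h.nn rfl (n + 1) w hw).1
    have l2 : l (bs n w'.1) ≠ 0 := (law_supp l (row en a) _ _ h.nn rfl (n + 1) w' hw').1
    have hQ : ∀ b, D.Q (cur (row en a) n w.1 b) = D.Q (cur (row en a) n w'.1 b) := by
      intro b
      rw [a4, b4]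
      exact hR _ _ l1 l2 e4 b
    have c1 := h.step' nd b0 (mv n) a (cur (row en a) n w.1) w.2 a1 a2 a3 i
    have c2 := h.step' nd b0 (mv n) a (cur (row en a) n w'.1) w'.2 b1 b2 b3 i
    have c3 : |D.z (w.2 b0) i - D.z (w'.2 b0) i| * 2 ^ D.n < 1 := fl_lt D.n (congrFun e1 i)
    have c4 : dz D b0 (mv n) (cur (row en a) n w.1) w.2 i = dz D b0 (mv n) (cur (row en a) n w'.1) w'.2 i := by
      unfold dz
      cases mv n with
      | none => rfl
      | some c =>
        show D.om (D.P (w.2 b0)) (D.Q (cur (row en a) n w.1 c)) i -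
          D.om (D.P (cur (row en a) n w.1 b0)) (D.Q (cur (row en a) n w.1 c)) i =
          D.om (D.P (w'.2 b0)) (D.Q (cur (row en a) n w'.1 c)) i -
          D.om (D.P (cur (row en a) n w'.1 b0)) (D.Q (cur (row en a) n w'.1 c)) i
        rw [hQ, e2, e3]
    rw [c4] at c1
    set x1 := D.z (cur (row en a) n w.1 b0) i
    set x2 := D.z (w.2 b0) i
    set y1 := D.z (cur (row en a) n w'.1 b0) i
    set y2 := D.z (w'.2 b0) i
    set d := dz D b0 (mv n) (cur (row en a) n w'.1) w'.2 i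
    have hp : (0 : ℝ) < 2 ^ D.n := by positivity
    have c5 : x1 - y1 = (x1 - (x2 + d)) + (x2 - y2) + (-(y1 - (y2 + d))) := by ring
    have c6 : |x1 - y1| ≤ |x1 - (x2 + d)| + |x2 - y2| + |y1 - (y2 + d)| := by
      rw [c5]
      have t1 := abs_add_le ((x1 - (x2 + d)) + (x2 - y2)) (-(y1 - (y2 + d)))
      have t2 := abs_add_le (x1 - (x2 + d)) (x2 - y2)
      rw [abs_neg] at t1
      linarith
    have c7 : |x1 - y1| * 2 ^ D.n ≤ (|x1 - (x2 + d)| + |x2 - y2| + |y1 - (y2 + d)|) * 2 ^ D.n :=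
      mul_le_mul_of_nonneg_right c6 hp.le
    have c8 : (|x1 - (x2 + d)| + |x2 - y2| + |y1 - (y2 + d)|) * 2 ^ D.n =
      |x1 - (x2 + d)| * 2 ^ D.n + |x2 - y2| * 2 ^ D.n + |y1 - (y2 + d)| * 2 ^ D.n := by ring
    have c9 : |x1 - y1| * 2 ^ D.n < ((7 : ℕ) : ℝ) := by
      rw [c8] at c7
      push_cast
      linarith
    exact fl_near D.n 7 c9)
  refine le_trans h1 (le_of_eq ?_)
  have h2 : (((7 : ℕ) : ℝ) + 1) = 2 ^ (3 : ℕ) := by norm_num
  rw [hmν, mul_one, h2, Real.logb_pow, Real.logb_self_eq_one (by norm_num)]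
  push_cast
  ring

/-- **COUNT**: the right vertices with column in `s` are full given the end centre, all points of the chain, all left
vertices and the other right vertices -/
theorem AR.count (h : AR D l en E) (hm : mass D.μ = 1) (e3 : ℝ) (he3 : 0 ≤ e3)
    (h3 : CH D.μ D.z3d D.F ≤ CH D.μ D.zd D.F + e3) (nd : α → η) (b0 : ιc) (mv : ℕ → Option ιc) (a : ιr)
    (s : Finset ιc) (n : ℕ) :
    s.card * CH D.μ D.Q D.F - (2 * E + n * (E + 4 * N + e3)) ≤
      CH (chl D l en nd b0 mv a n) (fun w => QC D en a s (bs n w))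
        (fun w => ((D.zd (cur (row en a) n w b0), tp (row en a) (fun x => D.P (x b0)) n w),
          ((PR D en b0 univ (bs n w), QC D en a sᶜ (bs n w)), D.F (en a b0 (bs n w))))) := by
  have hc := chain_count l (row en a) (push (row en a) l) (fun i => gl D nd b0 (mv i)) h.nn rfl
    (fun x => D.P (x b0)) (fun x => D.zd (x b0)) (QC D en a s)
    (fun w => ((PR D en b0 univ w, QC D en a sᶜ w), D.F (en a b0 w)))
    (fun x => (D.F (x b0), nd (D.P (x b0))))
    (CH D.μ D.P (fun ω => (D.F ω, nd (D.P ω))) - (E + N + e3)) (3 * N)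
    (CH D.μ D.P (fun ω => (D.F ω, nd (D.P ω)))) (CH D.μ D.zd D.F)
    (by
      intro w w' _ _ e
      simp only [Prod.mk.injEq] at e
      exact congrFun e.1.1 ⟨a, Finset.mem_univ a⟩)
    (fun i => h.gl_low hm a b0 nd (mv i) e3 he3 h3)
    (fun m => by
      refine h.inv hm nd b0 mv a
        (fun w => (QC D en a s w, ((PR D en b0 univ w, QC D en a sᶜ w), D.F (en a b0 w)))) ?_ m
      intro w w' _ _ e b
      simp only [Prod.mk.injEq] at e
      by_cases hb : b ∈ s
      · exact congrFun e.1 ⟨b, hb⟩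
      · exact congrFun e.2.1.2 ⟨b, Finset.mem_compl.2 hb⟩)
    (by
      intro i x x' _ _ e
      exact (Prod.ext_iff.1 (Prod.ext_iff.1 e).1).1)
    (by
      intro w w' _ _ e
      simp only [Prod.mk.injEq] at e
      have e1 : D.P (en a b0 w) = D.P (en a b0 w') := congrFun e.1.1 ⟨a, Finset.mem_univ a⟩
      show (D.F (en a b0 w), nd (D.P (en a b0 w))) = (D.F (en a b0 w'), nd (D.P (en a b0 w')))
      rw [e1, e.2])
    (by
      rw [push_CH (row en a) l h.nn (fun x => D.P (x b0)) (fun x => (D.F (x b0), nd (D.P (x b0))))]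
      exact le_of_eq (h.CH_en a b0 D.P (fun ω => (D.F ω, nd (D.P ω)))))
    (by
      rw [push_CH (row en a) l h.nn (fun x => D.zd (x b0)) (fun x => (D.F (x b0), nd (D.P (x b0))))]
      refine le_trans (ch_cond l h.nn _ (fun w => D.F (row en a w b0)) _ ?_) (le_of_eq (h.CH_en a b0 D.zd D.F))
      intro w w' _ _ e
      exact (Prod.ext_iff.1 e).1) n
  have k1 := h.QC_low a b0 s
  have k2 : CH D.μ D.zd D.F - E ≤ CH l (fun w => D.zd (row en a w b0))
      (fun w => (QC D en a s w, ((PR D en b0 univ w, QC D en a sᶜ w), D.F (en a b0 w)))) := by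
    refine le_trans (h.Z_low a b0) (le_of_eq ?_)
    apply ch_congr_right
    intro w w' _ _
    simp only [Prod.mk.injEq]
    constructor
    · rintro ⟨⟨e1, e2⟩, e4⟩
      refine ⟨?_, ⟨e1, ?_⟩, e4⟩
      · funext b
        exact congrFun e2 ⟨b.1, Finset.mem_univ _⟩
      · funext b
        exact congrFun e2 ⟨b.1, Finset.mem_univ _⟩
    · rintro ⟨e1, ⟨e2, e3⟩, e4⟩
      refine ⟨⟨e2, ?_⟩, e4⟩
      funext b
      by_cases hb : b.1 ∈ s
      · exact congrFun e1 ⟨b.1, hb⟩
      · exact congrFun e3 ⟨b.1, Finset.mem_compl.2 hb⟩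
  have k3 : CH D.μ D.P (fun ω => (D.F ω, nd (D.P ω))) - (CH D.μ D.P (fun ω => (D.F ω, nd (D.P ω))) -
      (E + N + e3)) + 3 * N = E + 4 * N + e3 := by ring
  rw [k3] at hc
  refine le_trans ?_ hc
  linarith

/-- count for the digits `t` of the right vertices -/
theorem AR.count' (h : AR D l en E) (hm : mass D.μ = 1) (e3 : ℝ) (he3 : 0 ≤ e3)
    (h3 : CH D.μ D.z3d D.F ≤ CH D.μ D.zd D.F + e3) (nd : α → η) (b0 : ιc) (mv : ℕ → Option ιc) (a : ιr)
    (t : β → τ) (s : Finset ιc) (n : ℕ) :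
    s.card * CH D.μ (fun ω => t (D.Q ω)) D.F - (2 * E + n * (E + 4 * N + e3)) ≤
      CH (chl D l en nd b0 mv a n) (fun w => fun b : {b // b ∈ s} => t (D.Q (en a b.1 (bs n w))))
        (fun w => ((D.zd (cur (row en a) n w b0), tp (row en a) (fun x => D.P (x b0)) n w),
          ((PR D en b0 univ (bs n w), QC D en a sᶜ (bs n w)), D.F (en a b0 (bs n w))))) := by
  have h1 := h.count hm e3 he3 h3 nd b0 mv a s n
  set ν := chl D l en nd b0 mv a n with hν
  have n0 : ∀ w, 0 ≤ ν w := law_nonneg l (row en a) _ _ h.nn rfl n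
  set G := fun w : Lam Λ (ιc → Ω) n => ((D.zd (cur (row en a) n w b0), tp (row en a) (fun x => D.P (x b0)) n w),
          ((PR D en b0 univ (bs n w), QC D en a sᶜ (bs n w)), D.F (en a b0 (bs n w)))) with hG
  set tQ := fun w : Lam Λ (ιc → Ω) n => fun b : {b // b ∈ s} => t (D.Q (en a b.1 (bs n w))) with htQ
  have c1 := ch_chain ν tQ (fun w => QC D en a s (bs n w)) G
  have c2 : CH ν (fun w => QC D en a s (bs n w)) G ≤ CH ν (fun w => (tQ w, QC D en a s (bs n w))) G := by
    apply ch_mono ν n0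
    intro w w' _ _ e _
    exact (Prod.ext_iff.1 e).2
  have c3 : CH ν (fun w => QC D en a s (bs n w)) (fun w => (tQ w, G w)) ≤
      s.card * CH D.μ D.Q (fun ω => (t (D.Q ω), D.F ω)) := by
    have d1 := ch_pi_le ν n0 (fun (b : {b // b ∈ s}) w => D.Q (en a b.1 (bs n w))) (fun w => (tQ w, G w))
      (fun _ g => g)
    refine le_trans d1 ?_
    have d2 : ∀ b : {b // b ∈ s}, CH ν (fun w => D.Q (en a b.1 (bs n w)))
        (hg (fun _ g => g) (fun w => (tQ w, G w)) b) ≤ CH D.μ D.Q (fun ω => (t (D.Q ω), D.F ω)) := by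
      intro b
      have d3 := law_CH_bs l (row en a) (push (row en a) l) (fun i => gl D nd b0 (mv i)) h.nn rfl n
        (fun w => D.Q (en a b.1 w)) (fun w => (t (D.Q (en a b.1 w)), D.F (en a b.1 w)))
      rw [h.CH_en a b.1 D.Q (fun ω => (t (D.Q ω), D.F ω))] at d3
      rw [← d3]
      apply ch_cond _ n0
      intro w w' hw hw' e
      simp only [hg, Prod.mk.injEq] at e
      have l1 : l (bs n w) ≠ 0 := (law_supp l (row en a) _ _ h.nn rfl n w hw).1
      have l2 : l (bs n w') ≠ 0 := (law_supp l (row en a) _ _ h.nn rfl n w' hw').1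
      rw [Prod.mk.injEq]
      refine ⟨congrFun e.1 b, ?_⟩
      rw [h.sF _ l1 a b.1 a b0, h.sF _ l2 a b.1 a b0]
      simp only [hG, Prod.mk.injEq] at e
      exact e.2.2.2
    refine le_trans (Finset.sum_le_sum fun b _ => d2 b) ?_
    rw [Finset.sum_const, Finset.card_univ, Fintype.card_coe, nsmul_eq_mul]
  have c4 := ch_chain D.μ (fun ω => t (D.Q ω)) D.Q D.F
  have c5 : CH D.μ (fun ω => (t (D.Q ω), D.Q ω)) D.F = CH D.μ D.Q D.F := by
    apply ch_congr_left
    intro ω ω' _ _ _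
    rw [Prod.mk.injEq]
    exact ⟨fun e => e.2, fun e => ⟨by rw [e], e⟩⟩
  have c6 : (s.card : ℝ) * CH D.μ D.Q D.F = s.card * CH D.μ (fun ω => t (D.Q ω)) D.F +
      s.card * CH D.μ D.Q (fun ω => (t (D.Q ω), D.F ω)) := by
    rw [← c5, c4]
    ring
  linarith

/-- **WALK**: the start centre is the end centre plus the contributions of the steps -/
theorem AR.walk (h : AR D l en E) (nd : α → η) (b0 : ιc) (mv : ℕ → Option ιc) (a : ιr) (n : ℕ)
    (w : Lam Λ (ιc → Ω) n) (hw : chl D l en nd b0 mv a n w ≠ 0) (i : Fin N) :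
    |D.z (en a b0 (bs n w)) i - (D.z (cur (row en a) n w b0) i +
      ∑ j ∈ range n, dz D b0 (mv j) (pt (row en a) n j w) (pt (row en a) n (j + 1) w) i)| * 2 ^ D.n ≤ 3 * n := by
  induction n with
  | zero =>
    rw [Finset.sum_range_zero, Nat.cast_zero, mul_zero, add_zero]
    have h1 : D.z (en a b0 (bs 0 w)) i - D.z (cur (row en a) 0 w b0) i = 0 := sub_self _
    rw [h1, abs_zero, zero_mul]
  | succ n ih =>
    obtain ⟨s0, s2, s3⟩ := law_supp l (row en a) _ (fun i => gl D nd b0 (mv i)) h.nn rfl (n + 1) w hw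
    have hw1 : chl D l en nd b0 mv a n w.1 ≠ 0 := (ex_supp _ _ _ _ w hw).1
    have h1 := ih w.1 hw1
    have s4 := s2 n (by omega)
    have s5 := s2 (n + 1) le_rfl
    have s6 := s3 n (by omega)
    have t1 : pt (row en a) (n + 1) n w = cur (row en a) n w.1 := by
      rw [pt_succ _ _ _ le_rfl, pt_last]
    have t2 : pt (row en a) (n + 1) (n + 1) w = w.2 := pt_last (row en a) (n + 1) w
    rw [t1] at s4 s6
    rw [t2] at s5 s6
    have h2 := h.step' nd b0 (mv n) a (cur (row en a) n w.1) w.2 s4 s5 s6 i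
    have h3 : ∑ j ∈ range (n + 1), dz D b0 (mv j) (pt (row en a) (n + 1) j w) (pt (row en a) (n + 1) (j + 1) w) i =
        ∑ j ∈ range n, dz D b0 (mv j) (pt (row en a) n j w.1) (pt (row en a) n (j + 1) w.1) i +
        dz D b0 (mv n) (cur (row en a) n w.1) w.2 i := by
      rw [Finset.sum_range_succ, t1, t2]
      congr 1
      refine Finset.sum_congr rfl fun j hj => ?_
      rw [Finset.mem_range] at hj
      rw [pt_succ _ _ _ (by omega : j ≤ n) w, pt_succ _ _ _ (by omega : j + 1 ≤ n) w]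
    rw [h3]
    have e1 : bs (n + 1) w = bs n w.1 := rfl
    have e2 : cur (row en a) (n + 1) w = w.2 := rfl
    rw [e1, e2]
    set A := D.z (en a b0 (bs n w.1)) i
    set B := D.z (cur (row en a) n w.1 b0) i
    set C := D.z (w.2 b0) i
    set S := ∑ j ∈ range n, dz D b0 (mv j) (pt (row en a) n j w.1) (pt (row en a) n (j + 1) w.1) i
    set d := dz D b0 (mv n) (cur (row en a) n w.1) w.2 i
    have hp : (0 : ℝ) < 2 ^ D.n := by positivity
    have e3 : A - (C + (S + d)) = (A - (B + S)) + (B - (C + d)) := by ring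
    have e4 := abs_add_le (A - (B + S)) (B - (C + d))
    have e5 : |A - (C + (S + d))| * 2 ^ D.n ≤ (|A - (B + S)| + |B - (C + d)|) * 2 ^ D.n := by
      rw [e3]
      exact mul_le_mul_of_nonneg_right e4 hp.le
    have e6 : (|A - (B + S)| + |B - (C + d)|) * 2 ^ D.n = |A - (B + S)| * 2 ^ D.n + |B - (C + d)| * 2 ^ D.n := by
      ring
    rw [e6] at e5
    push_cast
    linarith

end Pool.Agent.Helper25.FA
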