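import Pool.Agent.Helper25.FA.Cou

/-!
# Existence of arrays (FW, row A1)

`tht D ιc` : the law of a state (edges `(zeta, p, q_b)`, the `q_b` independent given the centre and `p`),
`arr D b0 ιr` : rows independent given the base, the centre and all right vertices.
-/

set_option autoImplicit false

namespace Pool.Agent.Helper25.FA

open Finset Pool.Agent.Helper69.RK Pool.Agent.Helper61.GL Pool.Agent.Helper31.EC Pool.Agent.Helper6.VS

variable {Ω φ α β : Type} [Fintype Ω] {N : ℕ} (D : ED Ω φ α β N) {ιr ιc : Type} [Fintype ιr]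
  [Fintype ιc] [DecidableEq ιr] [DecidableEq ιc]

/-- the label of the right vertices -/
noncomputable def labG (ω : Ω) : (φ × (Fin N → ℤ)) × α := ((D.F ω, D.zd ω), D.P ω)

/-- the label of the rows -/
noncomputable def labH (b0 : ιc) (x : ιc → Ω) : (φ × (Fin N → ℤ)) × (ιc → β) :=
  ((D.F (x b0), D.zd (x b0)), fun b => D.Q (x b))

/-- the law of a state -/
noncomputable def tht (ιc : Type) [Fintype ιc] : (ιc → Ω) → ℝ := ipw D.μ (labG D) ιc

/-- the law of the array -/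
noncomputable def arr (ιr : Type) [Fintype ιr] (b0 : ιc) : (ιr → ιc → Ω) → ℝ :=
  ipw (tht D ιc) (labH D b0) ιr

/-- entries -/
def ent (ιr ιc Ω : Type) (a : ιr) (b : ιc) (A : ιr → ιc → Ω) : Ω := A a b

variable {D}

omit [DecidableEq ιr] in
theorem tht_nonneg (hμ : ∀ ω, 0 ≤ D.μ ω) (x : ιc → Ω) : 0 ≤ tht D ιc x := ipw_nonneg D.μ (labG D) hμ x

theorem arr_nonneg (hμ : ∀ ω, 0 ≤ D.μ ω) (b0 : ιc) (A : ιr → ιc → Ω) : 0 ≤ arr D ιr b0 A :=
  ipw_nonneg (tht D ιc) (labH D b0) (tht_nonneg hμ) A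

/-- the law of a row -/
theorem arr_row (hμ : ∀ ω, 0 ≤ D.μ ω) (b0 : ιc) (a : ιr) :
    push (row (ent ιr ιc Ω) a) (arr D ιr b0) = tht D ιc :=
  ipw_pt (tht D ιc) (labH D b0) (tht_nonneg hμ) a

theorem arr_supp (b0 : ιc) (A : ιr → ιc → Ω) (hA : arr D ιr b0 A ≠ 0) :
    (∀ a, tht D ιc (A a) ≠ 0) ∧ ∀ a a', labH D b0 (A a) = labH D b0 (A a') :=
  ⟨fun a => ipw_supp_ne (tht D ιc) (labH D b0) A hA a, fun a a' => ipw_supp_eq (tht D ιc) (labH D b0) A hA a a'⟩

/-- **existence of arrays** -/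
theorem arr_AR (hμ : ∀ ω, 0 ≤ D.μ ω) (e : ℝ) (b0 : ιc)
    (n1 : CH D.μ D.Q D.F - e ≤ CH D.μ D.Q (fun ω => (D.P ω, D.F ω)))
    (n2 : CH D.μ D.zd D.F - e ≤ CH D.μ D.zd (fun ω => ((D.P ω, D.Q ω), D.F ω))) :
    AR D (arr D ιr b0) (ent ιr ιc Ω) (Fintype.card ιr * ((2 * Fintype.card ιc + 1) * e)) where
  nn := arr_nonneg hμ b0
  pu := by
    intro a b
    have h1 := arr_row hμ b0 a (D := D) (ιr := ιr) (ιc := ιc)
    have h2 := ipw_pt D.μ (labG D) hμ b
    have h3 : push (fun x : ιc → Ω => x b) (tht D ιc) = D.μ := h2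
    rw [← h1, push_push] at h3
    exact h3
  sF := by
    intro A hA a b a' b'
    obtain ⟨h1, h2⟩ := arr_supp b0 A hA
    have k1 := ipw_supp_eq D.μ (labG D) (A a) (h1 a) b b0
    have k2 := ipw_supp_eq D.μ (labG D) (A a') (h1 a') b' b0
    have k3 := h2 a a'
    simp only [labG, labH, Prod.mk.injEq] at k1 k2 k3
    show D.F (A a b) = D.F (A a' b')
    rw [k1.1.1, k2.1.1, k3.1.1]
  sZ := by
    intro A hA a b a' b'
    obtain ⟨h1, h2⟩ := arr_supp b0 A hA
    have k1 := ipw_supp_eq D.μ (labG D) (A a) (h1 a) b b0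
    have k2 := ipw_supp_eq D.μ (labG D) (A a') (h1 a') b' b0
    have k3 := h2 a a'
    simp only [labG, labH, Prod.mk.injEq] at k1 k2 k3
    show D.zd (A a b) = D.zd (A a' b')
    rw [k1.1.2, k2.1.2, k3.1.2]
  sP := by
    intro A hA a b b'
    obtain ⟨h1, h2⟩ := arr_supp b0 A hA
    have k1 := ipw_supp_eq D.μ (labG D) (A a) (h1 a) b b'
    exact (Prod.ext_iff.1 k1).2
  sQ := by
    intro A hA a a' b
    obtain ⟨h1, h2⟩ := arr_supp b0 A hA
    exact congrFun (Prod.ext_iff.1 (h2 a a')).2 b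
  tot := by
    intro a1 b1
    set Θ := tht D ιc with hΘ
    set ν := arr D ιr b0 with hν
    have t0 : ∀ x, 0 ≤ Θ x := tht_nonneg hμ
    have v0 : ∀ A, 0 ≤ ν A := arr_nonneg hμ b0
    -- labels on the states
    set Zs : (ιc → Ω) → (Fin N → ℤ) := fun x => D.zd (x b1) with hZs
    set Ps : (ιc → Ω) → α := fun x => D.P (x b1) with hPs
    set Fs : (ιc → Ω) → φ := fun x => D.F (x b1) with hFs
    set Qs : (ιc → Ω) → (ιc → β) := fun x b => D.Q (x b) with hQs
    have sup : ∀ x, Θ x ≠ 0 → ∀ b, D.F (x b) = D.F (x b1) ∧ D.zd (x b) = D.zd (x b1) ∧ D.P (x b) = D.P (x b1) := by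
      intro x hx b
      have k := ipw_supp_eq D.μ (labG D) x hx b b1
      simp only [labG, Prod.mk.injEq] at k
      exact ⟨k.1.1, k.1.2, k.2⟩
    -- numbers of the edge
    have m1 : CH D.μ D.zd D.F - e ≤ CH D.μ D.zd (fun ω => (D.P ω, D.F ω)) := by
      refine le_trans n2 (ch_cond D.μ hμ _ _ _ ?_)
      intro ω ω' _ _ q
      simp only [Prod.mk.injEq] at q ⊢
      exact ⟨q.1.1, q.2⟩
    have m2 : CH D.μ D.Q D.F - 2 * e ≤ CH D.μ D.Q (labG D) := by
      have c1 := ch_symm D.μ D.Q D.zd (fun ω => (D.P ω, D.F ω))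
      have c2 : CH D.μ D.Q (fun ω => (D.zd ω, (D.P ω, D.F ω))) = CH D.μ D.Q (labG D) := by
        apply ch_congr_right
        intro ω ω' _ _
        simp only [labG, Prod.mk.injEq]
        tauto
      have c3 : CH D.μ D.zd (fun ω => (D.Q ω, (D.P ω, D.F ω))) = CH D.μ D.zd (fun ω => ((D.P ω, D.Q ω), D.F ω)) := by
        apply ch_congr_right
        intro ω ω' _ _
        simp only [Prod.mk.injEq]
        tauto
      have c4 : CH D.μ D.zd (fun ω => (D.P ω, D.F ω)) ≤ CH D.μ D.zd D.F :=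
        ch_cond D.μ hμ _ _ _ fun ω ω' _ _ q => (Prod.ext_iff.1 q).2
      rw [c2, c3] at c1
      linarith
    have m3 : CH D.μ D.zd D.F + CH D.μ D.P D.F - e ≤ CH D.μ (fun ω => (D.P ω, D.zd ω)) D.F := by
      have c1 := ch_chain D.μ D.P D.zd D.F
      linarith
    -- the state: total
    have s1 : CH Θ (fun x => (Ps x, Zs x)) Fs = CH D.μ (fun ω => (D.P ω, D.zd ω)) D.F :=
      ipw_CH_pt D.μ (labG D) hμ b1 (fun ω => (D.P ω, D.zd ω)) D.F
    have s2 : CH Θ Qs (fun x => ((Ps x, Zs x), Fs x)) = Fintype.card ιc * CH D.μ D.Q (labG D) := by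
      have c1 := ipw_all D.μ (labG D) hμ (fun _ : ιc => D.Q) b1
      rw [Finset.sum_const, Finset.card_univ, nsmul_eq_mul] at c1
      rw [← c1]
      apply ch_congr_right
      intro x x' _ _
      simp only [labG, Prod.mk.injEq, hPs, hZs, hFs]
      tauto
    have s3 := ch_chain Θ (fun x => (Ps x, Zs x)) Qs Fs
    set A0 := CH Θ (fun x => (Zs x, Qs x)) Fs with hA0
    have s4 := ch_chain Θ (fun x => (Zs x, Qs x)) Ps Fs
    have s5 : CH Θ (fun x => ((Zs x, Qs x), Ps x)) Fs = CH Θ (fun x => ((Ps x, Zs x), Qs x)) Fs := by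
      apply ch_congr_left
      intro x x' _ _ _
      simp only [Prod.mk.injEq]
      tauto
    have s6 : A0 ≤ CH D.μ D.zd D.F + Fintype.card ιc * CH D.μ D.Q D.F := by
      have c1 := ch_pair_le Θ t0 Zs Qs Fs
      have c2 : CH Θ Zs Fs = CH D.μ D.zd D.F := ipw_CH_pt D.μ (labG D) hμ b1 D.zd D.F
      have c3 := ch_pi_le Θ t0 (fun (b : ιc) x => D.Q (x b)) Fs (fun _ g => g)
      have c4 : ∀ b : ιc, CH Θ (fun x => D.Q (x b)) (hg (fun _ g => g) Fs b) ≤ CH D.μ D.Q D.F := by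
        intro b
        rw [← ipw_CH_pt D.μ (labG D) hμ b D.Q D.F]
        apply ch_cond _ t0
        intro x x' hx hx' q
        rw [(sup x hx b).1, (sup x' hx' b).1]
        exact q
      have c5 := le_trans c3 (Finset.sum_le_sum fun b _ => c4 b)
      rw [Finset.sum_const, Finset.card_univ, nsmul_eq_mul] at c5
      rw [hA0]
      have c6 : CH Θ Qs Fs ≤ Fintype.card ιc * CH D.μ D.Q D.F := c5
      linarith
    -- the array
    have r1 : CH ν (fun A => (Zs (A a1), Qs (A a1))) (fun A => Fs (A a1)) = A0 :=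
      ipw_CH_pt Θ (labH D b0) t0 a1 (fun x => (Zs x, Qs x)) Fs
    have r2 : CH ν (fun A => fun a => Ps (A a)) (fun A => ((Zs (A a1), Qs (A a1)), Fs (A a1))) =
        Fintype.card ιr * CH Θ Ps (fun x => ((Zs x, Qs x), Fs x)) := by
      have c1 := ipw_all Θ (labH D b0) t0 (fun _ : ιr => Ps) a1
      rw [Finset.sum_const, Finset.card_univ, nsmul_eq_mul] at c1
      have c2 : CH Θ Ps (labH D b0) = CH Θ Ps (fun x => ((Zs x, Qs x), Fs x)) := by
        apply ch_congr_right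
        intro x x' hx hx'
        simp only [labH, Prod.mk.injEq, hZs, hFs, hQs]
        rw [(sup x hx b0).1, (sup x' hx' b0).1, (sup x hx b0).2.1, (sup x' hx' b0).2.1]
        tauto
      rw [c2] at c1
      rw [← c1]
      apply ch_congr_right
      intro A A' hA hA'
      obtain ⟨k1, -⟩ := arr_supp b0 A hA
      obtain ⟨k2, -⟩ := arr_supp b0 A' hA'
      simp only [labH, Prod.mk.injEq, hZs, hFs, hQs]
      rw [(sup _ (k1 a1) b0).1, (sup _ (k2 a1) b0).1, (sup _ (k1 a1) b0).2.1, (sup _ (k2 a1) b0).2.1]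
      tauto
    have r3 := ch_chain ν (fun A => (Zs (A a1), Qs (A a1))) (fun A => fun a => Ps (A a)) (fun A => Fs (A a1))
    have r4 : CH ν (fun A => (((fun a => D.P (ent ιr ιc Ω a b1 A)), (fun b => D.Q (ent ιr ιc Ω a1 b A))),
        D.zd (ent ιr ιc Ω a1 b1 A))) (fun A => D.F (ent ιr ιc Ω a1 b1 A)) =
        CH ν (fun A => ((Zs (A a1), Qs (A a1)), fun a => Ps (A a))) (fun A => Fs (A a1)) := by
      apply ch_congr_left
      intro A A' _ _ _
      simp only [Prod.mk.injEq, hZs, hQs, hPs, ent]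
      tauto
    rw [r4, r3, r1, r2]
    -- arithmetic
    set c := CH Θ Ps (fun x => ((Zs x, Qs x), Fs x)) with hc
    have hT : A0 + c = CH D.μ (fun ω => (D.P ω, D.zd ω)) D.F + Fintype.card ιc * CH D.μ D.Q (labG D) := by
      rw [← s1, ← s2, ← s3, ← s5, s4]
    have hcard : (1 : ℝ) ≤ Fintype.card ιr := by
      exact_mod_cast Fintype.card_pos_iff.2 ⟨a1⟩
    have hB : (0 : ℝ) ≤ Fintype.card ιc := Nat.cast_nonneg _
    have hB2 := mul_le_mul_of_nonneg_left m2 hB
    have u1 : CH D.μ D.P D.F - (2 * Fintype.card ιc + 1) * e ≤ c := by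
      have : (Fintype.card ιc : ℝ) * (CH D.μ D.Q D.F - 2 * e) = Fintype.card ιc * CH D.μ D.Q D.F -
        2 * Fintype.card ιc * e := by ring
      rw [this] at hB2
      have e2 : (2 * (Fintype.card ιc : ℝ) + 1) * e = 2 * Fintype.card ιc * e + e := by ring
      rw [e2]
      linarith
    have u2 := mul_le_mul_of_nonneg_left u1 (sub_nonneg.2 hcard)
    have u3 : A0 + Fintype.card ιr * c = (A0 + c) + ((Fintype.card ιr : ℝ) - 1) * c := by ring
    rw [u3]
    have u4 : CH D.μ D.zd D.F + CH D.μ D.P D.F + Fintype.card ιc * CH D.μ D.Q D.F -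
        (2 * Fintype.card ιc + 1) * e ≤ A0 + c := by
      have : (Fintype.card ιc : ℝ) * (CH D.μ D.Q D.F - 2 * e) = Fintype.card ιc * CH D.μ D.Q D.F -
        2 * Fintype.card ιc * e := by ring
      rw [this] at hB2
      have e2 : (2 * (Fintype.card ιc : ℝ) + 1) * e = 2 * Fintype.card ιc * e + e := by ring
      rw [e2, hT]
      linarith
    have u5 : ((Fintype.card ιr : ℝ) - 1) * (CH D.μ D.P D.F - (2 * Fintype.card ιc + 1) * e) =
        Fintype.card ιr * CH D.μ D.P D.F - CH D.μ D.P D.F - Fintype.card ιr * ((2 * Fintype.card ιc + 1) * e) +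
        (2 * Fintype.card ιc + 1) * e := by ring
    rw [u5] at u2
    linarith

end Pool.Agent.Helper25.FA
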