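import Pool.Agent.Helper25.FA.Win
import Pool.Agent.Helper61.FW.Ctx
import Pool.Agent.Helper6.FW.Slot
import Pool.Agent.Helper92.FW.Xg

/-!
# Count and walk in the conventions of the instance of theorem FW (rows hcount, hwalk of [KI])
-/

set_option autoImplicit false

namespace Pool.Agent.Helper25.FA

open Finset Pool.Agent.Helper69.RK Pool.Agent.Helper31.EC Pool.Agent.Helper6.VS
  Pool.Agent.Helper46.WF Pool.Agent.Helper61.FW Pool.Agent.Helper92.FW
open Pool.Agent.Helper61.GL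
open Pool.Agent.Helper6.FW (off off_eq)

/-! ### sums over the moves -/

theorem sum_oct (f : ℕ → ℝ) (K : ℕ) :
    ∑ j ∈ range (8 * K), f j = ∑ b : Fin K, ∑ r ∈ range 8, f (8 * b.val + r) := by
  rw [Fin.sum_univ_eq_sum_range (fun b => ∑ r ∈ range 8, f (8 * b + r)) K]
  induction K with
  | zero => rfl
  | succ K ih =>
    rw [Finset.sum_range_succ (fun b => ∑ r ∈ range 8, f (8 * b + r)), ← ih, mul_add, mul_one,
      Finset.sum_range_add]

variable {Ω φ α β η τ χ γ : Type} [Fintype Ω] {N k K : ℕ} {D : ED Ω φ α β N} {Λ : Type} [Fintype Λ]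
  {l : Λ → ℝ} {en : Fin (k + 2 * K) → Fin (k + 2 * K) → Λ → Ω} {E : ℝ}

/-- the left vertex of the point `j` -/
def Pp (D : ED Ω φ α β N) (en : Fin (k + 2 * K) → Fin (k + 2 * K) → Λ → Ω) (a b0 : Fin (k + 2 * K)) (M j : ℕ)
    (w : Lam Λ (Fin (k + 2 * K) → Ω) M) : α := D.P (pt (row en a) M j w b0)

/-- the carrier `e` of the block `b` -/
def Qp (D : ED Ω φ α β N) (en : Fin (k + 2 * K) → Fin (k + 2 * K) → Λ → Ω) (a : Fin (k + 2 * K)) (M : ℕ)
    (b : Fin K) (w : Lam Λ (Fin (k + 2 * K) → Ω) M) (e : Fin 2) : β := D.Q (en a (car b e) (bs M w))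

/-- the vertex `r` of the quadruple `e` of the block `b` -/
def Xp (D : ED Ω φ α β N) (en : Fin (k + 2 * K) → Fin (k + 2 * K) → Λ → Ω) (a b0 : Fin (k + 2 * K)) (M : ℕ)
    (b : Fin K) (e : Fin 2) (r : Fin 4) (w : Lam Λ (Fin (k + 2 * K) → Ω) M) : α :=
  Pp D en a b0 M (8 * b.val + 4 * e.val + r.val + 1) w

/-- **WALK** in blocks -/
theorem AR.kwalk (h : AR D l en E) (nd : α → η) (a b0 : Fin (k + 2 * K))
    (w : Lam Λ (Fin (k + 2 * K) → Ω) (8 * K)) (hw : chl D l en nd b0 (mvs k K) a (8 * K) w ≠ 0) (i : Fin N) :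
    |D.z (en a b0 (bs (8 * K) w)) i - (D.z (cur (row en a) (8 * K) w b0) i +
      ∑ b : Fin K, ∑ e : Fin 2,
        (D.om (Xp D en a b0 (8 * K) b e 1 w) (Qp D en a (8 * K) b w e) i -
         D.om (Xp D en a b0 (8 * K) b e 0 w) (Qp D en a (8 * K) b w e) i +
         (D.om (Xp D en a b0 (8 * K) b e 3 w) (Qp D en a (8 * K) b w e) i -
          D.om (Xp D en a b0 (8 * K) b e 2 w) (Qp D en a (8 * K) b w e) i)))| * 2 ^ D.n ≤ 24 * K := by
  have h1 := h.walk nd b0 (mvs k K) a (8 * K) w hw i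
  have h2 : ((3 : ℝ) * ((8 * K : ℕ) : ℝ)) = 24 * K := by
    push_cast
    ring
  rw [h2, sum_oct] at h1
  have hQ : ∀ j, j ≤ 8 * K → ∀ c, D.Q (pt (row en a) (8 * K) j w c) = D.Q (en a c (bs (8 * K) w)) := by
    intro j hj c
    exact congrFun (Prod.ext_iff.1 (h.const nd b0 (mvs k K) a (8 * K) w hw j hj)).2 c
  have h3 : ∀ b : Fin K, ∑ r ∈ range 8, dz D b0 (mvs k K (8 * b.val + r))
      (pt (row en a) (8 * K) (8 * b.val + r) w) (pt (row en a) (8 * K) (8 * b.val + r + 1) w) i =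
      ∑ e : Fin 2,
        (D.om (Xp D en a b0 (8 * K) b e 1 w) (Qp D en a (8 * K) b w e) i -
         D.om (Xp D en a b0 (8 * K) b e 0 w) (Qp D en a (8 * K) b w e) i +
         (D.om (Xp D en a b0 (8 * K) b e 3 w) (Qp D en a (8 * K) b w e) i -
          D.om (Xp D en a b0 (8 * K) b e 2 w) (Qp D en a (8 * K) b w e) i)) := by
    intro b
    have hb := b.isLt
    have ev : ∀ r, r < 8 → r % 2 = 0 → dz D b0 (mvs k K (8 * b.val + r))
        (pt (row en a) (8 * K) (8 * b.val + r) w) (pt (row en a) (8 * K) (8 * b.val + r + 1) w) i = 0 := by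
      intro r _ hr2
      rw [mvs_even (by omega)]
      rfl
    have od : ∀ r, r < 8 → r % 2 = 1 → ∀ e : Fin 2, e = (if r < 4 then 0 else 1) →
        dz D b0 (mvs k K (8 * b.val + r))
        (pt (row en a) (8 * K) (8 * b.val + r) w) (pt (row en a) (8 * K) (8 * b.val + r + 1) w) i =
        D.om (Pp D en a b0 (8 * K) (8 * b.val + r + 1) w) (Qp D en a (8 * K) b w e) i -
        D.om (Pp D en a b0 (8 * K) (8 * b.val + r) w) (Qp D en a (8 * K) b w e) i := by
      intro r hr8 hr2 e he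
      have hc : mvs k K (8 * b.val + r) = some (car b e) := by
        rw [mvs_odd (by omega) (by omega)]
        congr 1
        have q1 : (⟨(8 * b.val + r) / 8, by omega⟩ : Fin K) = b := Fin.ext (by
          show (8 * b.val + r) / 8 = b.val
          omega)
        have q2 : (8 * b.val + r) % 8 = r := by omega
        rw [q1, q2, he]
      rw [hc]
      show D.om (D.P (pt (row en a) (8 * K) (8 * b.val + r + 1) w b0))
          (D.Q (pt (row en a) (8 * K) (8 * b.val + r) w (car b e))) i -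
        D.om (D.P (pt (row en a) (8 * K) (8 * b.val + r) w b0))
          (D.Q (pt (row en a) (8 * K) (8 * b.val + r) w (car b e))) i = _
      rw [hQ _ (by omega)]
      rfl
    rw [Finset.sum_range_succ, Finset.sum_range_succ, Finset.sum_range_succ, Finset.sum_range_succ,
      Finset.sum_range_succ, Finset.sum_range_succ, Finset.sum_range_succ, Finset.sum_range_succ,
      Finset.sum_range_zero, ev 0 (by norm_num) (by norm_num), ev 2 (by norm_num) (by norm_num),
      ev 4 (by norm_num) (by norm_num), ev 6 (by norm_num) (by norm_num),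
      od 1 (by norm_num) (by norm_num) 0 (by norm_num), od 3 (by norm_num) (by norm_num) 0 (by norm_num),
      od 5 (by norm_num) (by norm_num) 1 (by norm_num), od 7 (by norm_num) (by norm_num) 1 (by norm_num),
      Fin.sum_univ_two]
    have x01 : Pp D en a b0 (8 * K) (8 * b.val + 1 + 1) w = Xp D en a b0 (8 * K) b 0 1 w := rfl
    have x00 : Pp D en a b0 (8 * K) (8 * b.val + 1) w = Xp D en a b0 (8 * K) b 0 0 w := rfl
    have x03 : Pp D en a b0 (8 * K) (8 * b.val + 3 + 1) w = Xp D en a b0 (8 * K) b 0 3 w := rfl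
    have x02 : Pp D en a b0 (8 * K) (8 * b.val + 3) w = Xp D en a b0 (8 * K) b 0 2 w := rfl
    have x11 : Pp D en a b0 (8 * K) (8 * b.val + 5 + 1) w = Xp D en a b0 (8 * K) b 1 1 w := rfl
    have x10 : Pp D en a b0 (8 * K) (8 * b.val + 5) w = Xp D en a b0 (8 * K) b 1 0 w := rfl
    have x13 : Pp D en a b0 (8 * K) (8 * b.val + 7 + 1) w = Xp D en a b0 (8 * K) b 1 3 w := rfl
    have x12 : Pp D en a b0 (8 * K) (8 * b.val + 7) w = Xp D en a b0 (8 * K) b 1 2 w := rfl
    rw [x01, x00, x03, x02, x11, x10, x13, x12]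
    ring
  rw [Finset.sum_congr rfl fun b _ => h3 b] at h1
  exact h1

/-- the time difference of a quadruple -/
def etp (tp : α → ℝ) (x : Fin 4 → α) : ℝ := tp (x 1) - tp (x 0) + (tp (x 3) - tp (x 2))

/-- the vector difference of a quadruple -/
def stp (Ap : α → Fin N → ℝ) (x : Fin 4 → α) : Fin N → ℝ := fun i => Ap (x 1) i - Ap (x 0) i + (Ap (x 3) i - Ap (x 2) i)

/-- **WALK** for `om = c (T C - A T')` in the shape of row K: `T s - eta C` with `s = - c stp`, `eta = - c etp` -/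
theorem AR.kwalk' (h : AR D l en E) (nd : α → η) (a b0 : Fin (k + 2 * K)) (tp : α → ℝ) (Ap : α → Fin N → ℝ)
    (tq : β → ℝ) (Cq : β → Fin N → ℝ) (c : ℝ) (hom : ∀ p q i, D.om p q i = c * (tp p * Cq q i - Ap p i * tq q))
    (w : Lam Λ (Fin (k + 2 * K) → Ω) (8 * K)) (hw : chl D l en nd b0 (mvs k K) a (8 * K) w ≠ 0) (i : Fin N) :
    |(D.z (en a b0 (bs (8 * K) w)) - D.z (cur (row en a) (8 * K) w b0) -
      ∑ b : Fin K, ∑ e : Fin 2,
        (tq (Qp D en a (8 * K) b w e) • ((-c) • stp Ap (fun r => Xp D en a b0 (8 * K) b e r w)) -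
          ((-c) * etp tp (fun r => Xp D en a b0 (8 * K) b e r w)) • Cq (Qp D en a (8 * K) b w e))) i| * 2 ^ D.n ≤
      24 * K := by
  have h1 := h.kwalk nd a b0 w hw i
  refine le_trans (le_of_eq ?_) h1
  congr 2
  rw [Pi.sub_apply, Pi.sub_apply, Finset.sum_apply, sub_sub]
  congr 2
  refine Finset.sum_congr rfl fun b _ => ?_
  rw [Finset.sum_apply]
  refine Finset.sum_congr rfl fun e _ => ?_
  rw [Pi.sub_apply, Pi.smul_apply, Pi.smul_apply, Pi.smul_apply, smul_eq_mul, smul_eq_mul, smul_eq_mul, hom, hom,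
    hom, hom]
  unfold stp etp
  ring

/-! ### counts -/

/-- **COUNT** for the two carriers of a block: any label `G` that is a function of the base, the left vertices, the
other right vertices, the points and the end centre -/
theorem AR.kcount (h : AR D l en E) (hm : mass D.μ = 1) (e3 : ℝ) (he3 : 0 ≤ e3)
    (h3 : CH D.μ D.z3d D.F ≤ CH D.μ D.zd D.F + e3) (nd : α → η) (a b0 : Fin (k + 2 * K)) (t : β → τ) (b : Fin K)
    {M : ℕ} (mv : ℕ → Option (Fin (k + 2 * K))) (G : Lam Λ (Fin (k + 2 * K) → Ω) M → γ)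
    (hG : ∀ w w', chl D l en nd b0 mv a M w ≠ 0 → chl D l en nd b0 mv a M w' ≠ 0 →
      D.zd (cur (row en a) M w b0) = D.zd (cur (row en a) M w' b0) →
      (∀ j, 1 ≤ j → j ≤ M → Pp D en a b0 M j w = Pp D en a b0 M j w') →
      (∀ a', D.P (en a' b0 (bs M w)) = D.P (en a' b0 (bs M w'))) →
      (∀ c, (∀ e, c ≠ car b e) → D.Q (en a c (bs M w)) = D.Q (en a c (bs M w'))) →
      D.F (en a b0 (bs M w)) = D.F (en a b0 (bs M w')) → G w = G w') :
    2 * CH D.μ (fun ω => t (D.Q ω)) D.F - (2 * E + M * (E + 4 * N + e3)) ≤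
      CH (chl D l en nd b0 mv a M) (fun w => fun e : Fin 2 => t (Qp D en a M b w e)) G := by
  classical
  set s : Finset (Fin (k + 2 * K)) := {car b 0, car b 1} with hs
  have hne : car (k := k) b 0 ≠ car b 1 := fun e => absurd (car_inj e).2 (by decide)
  have hcard : ((s.card : ℕ) : ℝ) = 2 := by
    rw [hs, Finset.card_pair hne]
    norm_num
  have h1 := h.count' hm e3 he3 h3 nd b0 mv a t s M
  rw [hcard] at h1
  set ν := chl D l en nd b0 mv a M with hν
  have n0 : ∀ w, 0 ≤ ν w := law_nonneg l (row en a) _ _ h.nn rfl M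
  refine le_trans h1 ?_
  have hmem : ∀ e : Fin 2, car (k := k) b e ∈ s := by
    intro e
    rw [hs, Finset.mem_insert, Finset.mem_singleton]
    rcases Fin.exists_fin_two.1 ⟨e, rfl⟩ with h2 | h2
    · left; rw [← h2]
    · right; rw [← h2]
  have hmem' : ∀ c : Fin (k + 2 * K), c ∈ s → ∃ e, c = car b e := by
    intro c hc
    rw [hs, Finset.mem_insert, Finset.mem_singleton] at hc
    rcases hc with hc | hc
    · exact ⟨0, hc⟩
    · exact ⟨1, hc⟩
  refine le_trans (ch_mono ν n0 _ (fun w => fun e : Fin 2 => t (Qp D en a M b w e)) _ ?_)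
    (ch_cond ν n0 _ _ _ ?_)
  · intro w w' _ _ e1 _
    funext c
    obtain ⟨e, he⟩ := hmem' c.1 c.2
    have h2 : t (Qp D en a M b w e) = t (Qp D en a M b w' e) := congrFun e1 e
    show t (D.Q (en a c.1 (bs M w))) = t (D.Q (en a c.1 (bs M w')))
    rw [he]
    exact h2
  · intro w w' hw hw' e1
    simp only [Prod.mk.injEq] at e1
    obtain ⟨⟨e2, e3⟩, ⟨e4, e5⟩, e6⟩ := e1
    refine hG w w' hw hw' e2 ?_ ?_ ?_ e6
    · intro j hj hj'
      have h2 := congrFun e3 ⟨j - 1, by omega⟩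
      have h3 : j - 1 + 1 = j := by omega
      have h4 : D.P (pt (row en a) M (j - 1 + 1) w b0) = D.P (pt (row en a) M (j - 1 + 1) w' b0) := h2
      rw [h3] at h4
      exact h4
    · intro a'
      exact congrFun e4 ⟨a', Finset.mem_univ a'⟩
    · intro c hc
      have hcs : c ∈ sᶜ := by
        rw [Finset.mem_compl]
        intro h5
        obtain ⟨e, he⟩ := hmem' c h5
        exact hc e he
      exact congrFun e5 ⟨c, hcs⟩

/-- the mean of the conditional deficits -/
theorem AR.kmean (h : AR D l en E) (hm : mass D.μ = 1) (nd : α → η) (a b0 : Fin (k + 2 * K)) {M : ℕ}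
    (mv : ℕ → Option (Fin (k + 2 * K))) (X : Λ → χ) (G : Lam Λ (Fin (k + 2 * K) → Ω) M → γ)
    (hGX : ∀ w w', chl D l en nd b0 mv a M w ≠ 0 → chl D l en nd b0 mv a M w' ≠ 0 → G w = G w' →
      X (bs M w) = X (bs M w')) (T : Lam Λ (Fin (k + 2 * K) → Ω) M → τ) (n : ℝ) :
    ∑ w, chl D l en nd b0 mv a M w * (n - CH (cw (chl D l en nd b0 mv a M) (fun v => X (bs M v)) w) T G) =
      n - CH (chl D l en nd b0 mv a M) T G := by
  have n0 : ∀ w, 0 ≤ chl D l en nd b0 mv a M w := law_nonneg l (row en a) _ _ h.nn rfl M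
  have h1 := xg_deficit (chl D l en nd b0 mv a M) n0 T G (fun v => X (bs M v)) hGX n
  rw [h1]
  have h2 : mass (chl D l en nd b0 mv a M) = 1 := by
    unfold chl
    rw [law_mass l (row en a) _ _ h.nn rfl, ← push_mass (en a b0) l h.nn, h.pu a b0, hm]
  rw [h2, mul_one]

/-- the mean over the base -/
theorem AR.kbase (h : AR D l en E) (nd : α → η) (a b0 : Fin (k + 2 * K)) {M : ℕ}
    (mv : ℕ → Option (Fin (k + 2 * K))) (g : Λ → ℝ) :
    ∑ w, chl D l en nd b0 mv a M w * g (bs M w) = ∑ v, l v * g v := by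
  have h1 := Pool.Agent.Helper70.RK.e5_sum (bs (St := Fin (k + 2 * K) → Ω) M) (chl D l en nd b0 mv a M) g
  have h2 : push (bs M) (chl D l en nd b0 mv a M) = l := law_bs l (row en a) _ _ h.nn rfl M
  rw [h2] at h1
  exact h1.symm

end Pool.Agent.Helper25.FA
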