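import Pool.Agent.Helper25.FA.Arr

/-!
# Moves and the count (FW, row A1)

A state is a row `x : ιc → Ω` of edges. `gl D nd b0 none` is the label of a refresh, `gl D nd b0 (some c)` the label of
the move with the carrier of column `c` (base, node of the left vertex, all right vertices, first centre resp. second
centre along the edge `c`).
-/

set_option autoImplicit false

namespace Pool.Agent.Helper25.FA

open Finset Pool.Agent.Helper69.RK Pool.Agent.Helper61.GL Pool.Agent.Helper31.EC Pool.Agent.Helper6.VS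

/-! ### floors -/

theorem fl_lt (n : ℕ) {x y : ℝ} (h : fl n x = fl n y) : |x - y| * 2 ^ n < 1 := by
  have h1 : |(2 : ℝ) ^ n * x - 2 ^ n * y| < 1 := Int.abs_sub_lt_one_of_floor_eq_floor h
  have h2 : (2 : ℝ) ^ n * x - 2 ^ n * y = (x - y) * 2 ^ n := by ring
  rw [h2, abs_mul, abs_of_pos (by positivity : (0 : ℝ) < 2 ^ n)] at h1
  exact h1

theorem fl_near (n : ℕ) (k : ℕ) {x y : ℝ} (h : |x - y| * 2 ^ n < k) : |((fl n x : ℤ) : ℝ) - fl n y| ≤ k := by
  have h1 : (fl n x : ℝ) ≤ 2 ^ n * x := Int.floor_le _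
  have h2 : 2 ^ n * x < (fl n x : ℝ) + 1 := Int.lt_floor_add_one _
  have h3 : (fl n y : ℝ) ≤ 2 ^ n * y := Int.floor_le _
  have h4 : 2 ^ n * y < (fl n y : ℝ) + 1 := Int.lt_floor_add_one _
  have hp : (0 : ℝ) < 2 ^ n := by positivity
  have h5 : |(2 : ℝ) ^ n * x - 2 ^ n * y| < k := by
    have h6 : (2 : ℝ) ^ n * x - 2 ^ n * y = (x - y) * 2 ^ n := by ring
    rw [h6, abs_mul, abs_of_pos hp]
    exact h
  rw [abs_lt] at h5
  have h7 : (fl n x - fl n y : ℤ) < (k : ℤ) + 1 := by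
    have : ((fl n x - fl n y : ℤ) : ℝ) < ((k : ℤ) + 1 : ℤ) := by
      push_cast
      linarith
    exact_mod_cast this
  have h8 : (-(k : ℤ) - 1) < (fl n x - fl n y : ℤ) := by
    have : ((-(k : ℤ) - 1 : ℤ) : ℝ) < ((fl n x - fl n y : ℤ) : ℝ) := by
      push_cast
      linarith
    exact_mod_cast this
  have h9 : |(fl n x - fl n y : ℤ)| ≤ (k : ℤ) := by
    rw [abs_le]
    constructor <;> omega
  have h10 : ((|(fl n x - fl n y : ℤ)| : ℤ) : ℝ) ≤ ((k : ℤ) : ℝ) := by exact_mod_cast h9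
  rw [Int.cast_abs] at h10
  push_cast at h10
  exact h10

/-- entropy of an integer vector -/
theorem ch_vec {Ω γ : Type} [Fintype Ω] {N : ℕ} (μ : Ω → ℝ) (hμ : ∀ ω, 0 ≤ μ ω) (X : Ω → Fin N → ℤ) (G : Ω → γ)
    (k : ℕ) (h : ∀ ω ω', μ ω ≠ 0 → μ ω' ≠ 0 → G ω = G ω' → ∀ i, |(X ω i : ℝ) - X ω' i| ≤ k) :
    CH μ X G ≤ N * Real.logb 2 (k + 1) * mass μ :=
  st_E3.2 Ω γ N μ X G k hμ (Nat.cast_nonneg k) h

theorem push_ne {Ω Ω' : Type} [Fintype Ω'] (π : Ω' → Ω) (ν : Ω' → ℝ) (y : Ω) (h : push π ν y ≠ 0) :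
    ∃ x, ν x ≠ 0 ∧ π x = y := by
  rw [push_ind] at h
  obtain ⟨x, -, hx⟩ := Finset.exists_ne_zero_of_sum_ne_zero h
  by_cases h1 : π x = y
  · refine ⟨x, fun e => hx ?_, h1⟩
    rw [e, mul_zero]
  · exact absurd (by rw [e1_ind_neg h1, zero_mul]) hx

/-- a label preserved by the moves is constant along the chain -/
theorem law_const {Λ St κ γ : Type} [Fintype Λ] [Fintype St] (l : Λ → ℝ) (r : Λ → St) (Θ : St → ℝ)
    (f : ℕ → St → κ) (hl : ∀ w, 0 ≤ l w) (hr : push r l = Θ) (g0 : St → γ)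
    (hf : ∀ i x x', Θ x ≠ 0 → Θ x' ≠ 0 → f i x = f i x' → g0 x = g0 x') (n : ℕ) (w : Lam Λ St n)
    (h : law l r Θ f n w ≠ 0) (i : ℕ) (hi : i ≤ n) : g0 (pt r n i w) = g0 (r (bs n w)) := by
  obtain ⟨-, h2, h3⟩ := law_supp l r Θ f hl hr n w h
  induction i with
  | zero => rw [pt_zero]
  | succ i ih =>
    rw [← ih (by omega)]
    exact hf i _ _ (h2 (i + 1) hi) (h2 i (by omega)) (h3 i (by omega))

section mv

variable {Ω φ α β η : Type} [Fintype Ω] {N : ℕ} (D : ED Ω φ α β N) {Λ ιr ιc : Type} [Fintype Λ] [Fintype ιr]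
  [Fintype ιc] [DecidableEq ιr] [DecidableEq ιc]

/-- row `a` of the array -/
def row {Λ ιr ιc Ω : Type} (en : ιr → ιc → Λ → Ω) (a : ιr) (w : Λ) : ιc → Ω := fun b => en a b w

/-- the centre used by a move -/
noncomputable def zmv (b0 : ιc) (mv : Option ιc) (x : ιc → Ω) : Fin N → ℤ :=
  match mv with
  | none => D.zd (x b0)
  | some c => D.z3d (x c)

/-- the glueing label of a move -/
noncomputable def gl (nd : α → η) (b0 : ιc) (mv : Option ιc) (x : ιc → Ω) :
    ((φ × η) × (ιc → β)) × (Fin N → ℤ) :=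
  (((D.F (x b0), nd (D.P (x b0))), fun b => D.Q (x b)), zmv D b0 mv x)

variable {D} {l : Λ → ℝ} {en : ιr → ιc → Λ → Ω} {E : ℝ}

omit [DecidableEq ιr] in
theorem AR.Th_supp (h : AR D l en E) (a : ιr) (x : ιc → Ω) (hx : push (row en a) l x ≠ 0) :
    (∀ b b', D.P (x b) = D.P (x b')) ∧ (∀ b b', D.F (x b) = D.F (x b')) ∧ ∀ b b', D.zd (x b) = D.zd (x b') := by
  obtain ⟨w, hw, rfl⟩ := push_ne (row en a) l x hx
  exact ⟨fun b b' => h.sP w hw a b b', fun b b' => h.sF w hw a b a b', fun b b' => h.sZ w hw a b a b'⟩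

/-- the centre of a state is known up to 1 from the second centre and the vertices -/
theorem AR.z_le (h : AR D l en E) (a : ιr) (b0 c : ιc) (x y : ιc → Ω) (hx : push (row en a) l x ≠ 0)
    (hy : push (row en a) l y ≠ 0) (hP : D.P (x b0) = D.P (y b0)) (hQ : D.Q (x c) = D.Q (y c))
    (hz : D.z3d (x c) = D.z3d (y c)) (i : Fin N) : |D.z (x c) i - D.z (y c) i| * 2 ^ D.n < 1 := by
  obtain ⟨p1, -, -⟩ := h.Th_supp a x hx
  obtain ⟨q1, -, -⟩ := h.Th_supp a y hy
  have h1 := fl_lt D.n (congrFun hz i)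
  have h2 : D.z3 (x c) i - D.z3 (y c) i = D.z (x c) i - D.z (y c) i := by
    show D.z (x c) i + D.om (D.P (x c)) (D.Q (x c)) i - (D.z (y c) i + D.om (D.P (y c)) (D.Q (y c)) i) = _
    rw [p1 c b0, q1 c b0, hP, hQ]
    ring
  rw [h2] at h1
  exact h1

theorem AR.gl_low (h : AR D l en E) (hm : mass D.μ = 1) (a : ιr) (b0 : ιc) (nd : α → η) (mv : Option ιc) (e3 : ℝ)
    (he3 : 0 ≤ e3) (h3 : CH D.μ D.z3d D.F ≤ CH D.μ D.zd D.F + e3) :
    CH D.μ D.P (fun ω => (D.F ω, nd (D.P ω))) - (E + N + e3) ≤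
      CH (push (row en a) l) (fun x => D.P (x b0)) (gl D nd b0 mv) := by
  have hml : mass l = 1 := by
    rw [← push_mass (en a b0) l h.nn, h.pu a b0, hm]
  have n0 := h.nn
  rw [push_CH (row en a) l h.nn (fun x => D.P (x b0)) (gl D nd b0 mv)]
  set P : Λ → α := fun w => D.P (en a b0 w) with hP
  set rest : Λ → (Fin N → ℤ) × (({b // b ∈ (univ : Finset ιc)} → β) × φ) :=
    fun w => (zmv D b0 mv (row en a w), (QC D en a univ w, D.F (en a b0 w))) with hrest
  -- the entropy without the node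
  have k1 : CH D.μ D.P D.F - (E + N + e3) ≤ CH l P rest := by
    cases mv with
    | none =>
      have c1 := h.P_low a a b0
      have c2 : CH l P rest = CH l (fun w => D.P (en a b0 w))
          (fun w => (D.zd (en a b0 w), (QC D en a univ w, D.F (en a b0 w)))) := rfl
      rw [c2]
      have c3 : (0 : ℝ) ≤ N := Nat.cast_nonneg N
      linarith
    | some c =>
      set Z3 : Λ → Fin N → ℤ := fun w => D.z3d (en a c w) with hZ3
      set Z : Λ → Fin N → ℤ := fun w => D.zd (en a b0 w) with hZ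
      set G : Λ → ({b // b ∈ (univ : Finset ιc)} → β) × φ := fun w => (QC D en a univ w, D.F (en a b0 w)) with hG
      have c1 := h.PZ_low a a b0
      have c2 := ch_chain l Z3 P G
      have c3 : CH l Z3 G ≤ CH D.μ D.z3d D.F := by
        rw [← h.CH_en a c D.z3d D.F]
        apply ch_cond l n0
        intro w w' hw hw' e
        rw [h.sF w hw a c a b0, h.sF w' hw' a c a b0]
        exact (Prod.ext_iff.1 e).2
      have c4 := ch_tri l n0 (fun w => (Z w, P w)) (fun w => (Z3 w, P w)) G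
      have c5 : CH l (fun w => (Z w, P w)) (fun w => ((Z3 w, P w), G w)) ≤ N := by
        have d1 : CH l (fun w => (Z w, P w)) (fun w => ((Z3 w, P w), G w)) ≤
            CH l Z (fun w => ((Z3 w, P w), G w)) := by
          apply ch_mono l n0
          intro w w' _ _ e1 e2
          simp only [Prod.mk.injEq] at e2 ⊢
          exact ⟨e1, e2.1.2⟩
        have d2 := ch_vec l n0 Z (fun w => ((Z3 w, P w), G w)) 1 (by
          intro w w' hw hw' e i
          simp only [Prod.mk.injEq, hG] at e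
          obtain ⟨⟨e1, e2⟩, e3, e4⟩ := e
          have s1 : push (row en a) l (row en a w) ≠ 0 := push_supp _ _ h.nn w hw
          have s2 : push (row en a) l (row en a w') ≠ 0 := push_supp _ _ h.nn w' hw'
          have t1 := h.z_le a b0 c (row en a w) (row en a w') s1 s2 e2
            (congrFun e3 ⟨c, Finset.mem_univ c⟩) e1 i
          have t2 := fl_near D.n 1 (x := D.z (en a c w) i) (y := D.z (en a c w') i)
            (by rw [Nat.cast_one]; exact t1)
          have t3 : Z w i = fl D.n (D.z (en a c w) i) := congrFun (h.sZ w hw a b0 a c) i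
          have t4 : Z w' i = fl D.n (D.z (en a c w') i) := congrFun (h.sZ w' hw' a b0 a c) i
          rw [t3, t4]
          exact t2)
        have d3 : (N : ℝ) * Real.logb 2 (((1 : ℕ) : ℝ) + 1) * mass l = N := by
          rw [hml, mul_one]
          have : ((1 : ℕ) : ℝ) + 1 = 2 := by norm_num
          rw [this, Real.logb_self_eq_one (by norm_num), mul_one]
        rw [d3] at d2
        exact le_trans d1 d2
      have c6 : CH l (fun w => (D.zd (en a b0 w), D.P (en a b0 w))) (fun w => (QC D en a univ w, D.F (en a b0 w))) =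
          CH l (fun w => (Z w, P w)) G := rfl
      rw [c6] at c1
      have c7 : CH l P rest = CH l P (fun w => (Z3 w, G w)) := rfl
      rw [c7]
      linarith
  -- the node
  have k2 := ch_chain l (fun w => nd (P w)) P rest
  have k3 : CH l P rest ≤ CH l (fun w => (nd (P w), P w)) rest := by
    apply ch_mono l n0
    intro w w' _ _ e _
    exact (Prod.ext_iff.1 e).2
  have k4 : CH l (fun w => nd (P w)) rest ≤ CH D.μ (fun ω => nd (D.P ω)) D.F := by
    rw [← h.CH_en a b0 (fun ω => nd (D.P ω)) D.F]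
    apply ch_cond l n0
    intro w w' _ _ e
    simp only [hrest, Prod.mk.injEq] at e
    exact e.2.2
  have k5 := ch_chain D.μ (fun ω => nd (D.P ω)) D.P D.F
  have k6 : CH D.μ (fun ω => (nd (D.P ω), D.P ω)) D.F = CH D.μ D.P D.F := by
    apply ch_congr_left
    intro ω ω' _ _ _
    rw [Prod.mk.injEq]
    exact ⟨fun e => e.2, fun e => ⟨by rw [e], e⟩⟩
  have k7 : CH D.μ D.P (fun ω => (nd (D.P ω), D.F ω)) = CH D.μ D.P (fun ω => (D.F ω, nd (D.P ω))) := by
    apply ch_congr_right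
    intro ω ω' _ _
    rw [Prod.mk.injEq, Prod.mk.injEq]
    exact and_comm
  have k8 : CH l P (fun w => (nd (P w), rest w)) = CH l P (fun w => gl D nd b0 mv (row en a w)) := by
    apply ch_congr_right
    intro w w' _ _
    simp only [hrest, gl, Prod.mk.injEq]
    constructor
    · rintro ⟨e1, e2, e3, e4⟩
      exact ⟨⟨⟨e4, e1⟩, funext fun b => congrFun e3 ⟨b, Finset.mem_univ b⟩⟩, e2⟩
    · rintro ⟨⟨⟨e1, e2⟩, e3⟩, e4⟩
      exact ⟨e2, e4, funext fun b => congrFun e3 b.1, e1⟩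
  have k9 : CH l (fun w => D.P (row en a w b0)) (fun w => gl D nd b0 mv (row en a w)) =
      CH l P (fun w => gl D nd b0 mv (row en a w)) := rfl
  rw [k9, ← k8]
  linarith

/-- the label preserved by all moves -/
def g0 (D : ED Ω φ α β N) (nd : α → η) (b0 : ιc) (x : ιc → Ω) : (φ × η) × (ιc → β) :=
  ((D.F (x b0), nd (D.P (x b0))), fun b => D.Q (x b))

/-- the law of the chain of the array which starts at row `a` -/
noncomputable def chl (D : ED Ω φ α β N) (l : Λ → ℝ) (en : ιr → ιc → Λ → Ω) (nd : α → η) (b0 : ιc)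
    (mv : ℕ → Option ιc) (a : ιr) (n : ℕ) : Lam Λ (ιc → Ω) n → ℝ :=
  law l (row en a) (push (row en a) l) (fun i => gl D nd b0 (mv i)) n

theorem AR.const (h : AR D l en E) (nd : α → η) (b0 : ιc) (mv : ℕ → Option ιc) (a : ιr) (n : ℕ)
    (w : Lam Λ (ιc → Ω) n) (hw : chl D l en nd b0 mv a n w ≠ 0) (i : ℕ) (hi : i ≤ n) :
    g0 D nd b0 (pt (row en a) n i w) = g0 D nd b0 (row en a (bs n w)) :=
  law_const l (row en a) _ _ h.nn rfl (g0 D nd b0) (fun _ _ _ _ _ e => (Prod.ext_iff.1 e).1) n w hw i hi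

/-- one step: the real centres -/
theorem AR.step (h : AR D l en E) (nd : α → η) (b0 : ιc) (mv : Option ιc) (a : ιr) (x x' : ιc → Ω)
    (hx : push (row en a) l x ≠ 0) (hx' : push (row en a) l x' ≠ 0) (hg : gl D nd b0 mv x' = gl D nd b0 mv x)
    (i : Fin N) :
    |D.z (x b0) i - (D.z (x' b0) i + (match mv with
      | none => 0
      | some c => D.om (D.P (x' b0)) (D.Q (x c)) i - D.om (D.P (x b0)) (D.Q (x c)) i))| * 2 ^ D.n < 3 := by
  obtain ⟨p1, -, z1⟩ := h.Th_supp a x hx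
  obtain ⟨q1, -, y1⟩ := h.Th_supp a x' hx'
  have hp : (0 : ℝ) < 2 ^ D.n := by positivity
  cases mv with
  | none =>
    have h1 : D.zd (x' b0) = D.zd (x b0) := (Prod.ext_iff.1 hg).2
    have h2 := fl_lt D.n (congrFun h1.symm i)
    have h3 : D.z (x b0) i - (D.z (x' b0) i + 0) = D.z (x b0) i - D.z (x' b0) i := by ring
    show |D.z (x b0) i - (D.z (x' b0) i + 0)| * 2 ^ D.n < 3
    rw [h3]
    linarith
  | some c =>
    have h1 : D.z3d (x' c) = D.z3d (x c) := (Prod.ext_iff.1 hg).2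
    have h0 : (fun b => D.Q (x' b)) = fun b => D.Q (x b) := (Prod.ext_iff.1 (Prod.ext_iff.1 hg).1).2
    have hQ : D.Q (x' c) = D.Q (x c) := congrFun h0 c
    have h2 := fl_lt D.n (congrFun h1.symm i)
    have h3 := fl_lt D.n (congrFun (z1 b0 c) i)
    have h4 := fl_lt D.n (congrFun (y1 b0 c) i)
    have e1 : D.z3 (x c) i = D.z (x c) i + D.om (D.P (x b0)) (D.Q (x c)) i := by
      show D.z (x c) i + D.om (D.P (x c)) (D.Q (x c)) i = _
      rw [p1 c b0]
    have e2 : D.z3 (x' c) i = D.z (x' c) i + D.om (D.P (x' b0)) (D.Q (x c)) i := by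
      show D.z (x' c) i + D.om (D.P (x' c)) (D.Q (x' c)) i = _
      rw [q1 c b0, hQ]
    have e3 : D.z (x b0) i - (D.z (x' b0) i + (D.om (D.P (x' b0)) (D.Q (x c)) i - D.om (D.P (x b0)) (D.Q (x c)) i)) =
        (D.z (x b0) i - D.z (x c) i) + (D.z3 (x c) i - D.z3 (x' c) i) + (-(D.z (x' b0) i - D.z (x' c) i)) := by
      rw [e1, e2]
      ring
    show |D.z (x b0) i - (D.z (x' b0) i + (D.om (D.P (x' b0)) (D.Q (x c)) i -
      D.om (D.P (x b0)) (D.Q (x c)) i))| * 2 ^ D.n < 3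
    rw [e3]
    have t1 := abs_add_le ((D.z (x b0) i - D.z (x c) i) + (D.z3 (x c) i - D.z3 (x' c) i)) (-(D.z (x' b0) i - D.z (x' c) i))
    have t2 := abs_add_le (D.z (x b0) i - D.z (x c) i) (D.z3 (x c) i - D.z3 (x' c) i)
    rw [abs_neg] at t1
    have t3 : |(D.z (x b0) i - D.z (x c) i) + (D.z3 (x c) i - D.z3 (x' c) i) + (-(D.z (x' b0) i - D.z (x' c) i))| *
        2 ^ D.n ≤ (|D.z (x b0) i - D.z (x c) i| + |D.z3 (x c) i - D.z3 (x' c) i| +
        |D.z (x' b0) i - D.z (x' c) i|) * 2 ^ D.n :=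
      mul_le_mul_of_nonneg_right (by linarith) hp.le
    have t4 : (|D.z (x b0) i - D.z (x c) i| + |D.z3 (x c) i - D.z3 (x' c) i| +
        |D.z (x' b0) i - D.z (x' c) i|) * 2 ^ D.n = |D.z (x b0) i - D.z (x c) i| * 2 ^ D.n +
        |D.z3 (x c) i - D.z3 (x' c) i| * 2 ^ D.n + |D.z (x' b0) i - D.z (x' c) i| * 2 ^ D.n := by ring
    rw [t4] at t3
    have h3' : |D.z (x b0) i - D.z (x c) i| * 2 ^ D.n < 1 := h3
    have h4' : |D.z (x' b0) i - D.z (x' c) i| * 2 ^ D.n < 1 := h4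
    linarith

end mv

end Pool.Agent.Helper25.FA
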