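import Pool.Agent.Helper25.FA.Chn

/-!
# Independent copies over a label, any finite index type (FW, row A1)

`ipw μ G` is the law on `ι → Ω` of a family of copies of `ω` which are independent given `G` (mixture over a
discarded copy); `stw μ G` keeps that copy.
-/

set_option autoImplicit false

namespace Pool.Agent.Helper25.FA

open Finset Pool.Agent.Helper69.RK Pool.Agent.Helper61.GL Pool.Agent.Helper31.EC Pool.Agent.Helper6.VS

variable {Ω γ α β δ : Type} [Fintype Ω] {ι ι' : Type} [Fintype ι] [Fintype ι'] [DecidableEq ι]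
  [DecidableEq ι']

/-- independent copies with the discarded one -/
noncomputable def stw (μ : Ω → ℝ) (G : Ω → γ) (ι : Type) [Fintype ι] : Ω × (ι → Ω) → ℝ :=
  fun w => μ w.1 * ∏ i, cw μ G w.1 (w.2 i)

/-- independent copies -/
noncomputable def ipw (μ : Ω → ℝ) (G : Ω → γ) (ι : Type) [Fintype ι] : (ι → Ω) → ℝ :=
  fun x => ∑ ω, stw μ G ι (ω, x)

section

variable (μ : Ω → ℝ) (G : Ω → γ) (hμ : ∀ ω, 0 ≤ μ ω)

include hμ in
theorem stw_nonneg (w : Ω × (ι → Ω)) : 0 ≤ stw μ G ι w :=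
  mul_nonneg (hμ _) (Finset.prod_nonneg fun _ _ => cw_nonneg μ G hμ _ _)

include hμ in
theorem ipw_nonneg (x : ι → Ω) : 0 ≤ ipw μ G ι x :=
  Finset.sum_nonneg fun ω _ => stw_nonneg μ G hμ (ω, x)

theorem stw_supp (w : Ω × (ι → Ω)) (h : stw μ G ι w ≠ 0) :
    μ w.1 ≠ 0 ∧ ∀ i, G (w.2 i) = G w.1 ∧ μ (w.2 i) ≠ 0 := by
  have h1 : μ w.1 ≠ 0 := fun e => h (by unfold stw; rw [e, zero_mul])
  have h2 : (∏ i, cw μ G w.1 (w.2 i)) ≠ 0 := fun e => h (by unfold stw; rw [e, mul_zero])
  rw [Finset.prod_ne_zero_iff] at h2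
  exact ⟨h1, fun i => cw_ne_zero μ G (h2 i (Finset.mem_univ i))⟩

theorem ipw_supp (x : ι → Ω) (h : ipw μ G ι x ≠ 0) :
    ∃ ω, μ ω ≠ 0 ∧ ∀ i, G (x i) = G ω ∧ μ (x i) ≠ 0 := by
  unfold ipw at h
  obtain ⟨ω, -, hω⟩ := Finset.exists_ne_zero_of_sum_ne_zero h
  exact ⟨ω, stw_supp μ G (ω, x) hω⟩

theorem ipw_supp_eq (x : ι → Ω) (h : ipw μ G ι x ≠ 0) (i j : ι) : G (x i) = G (x j) := by
  obtain ⟨ω, -, h1⟩ := ipw_supp μ G x h
  rw [(h1 i).1, (h1 j).1]

theorem ipw_supp_ne (x : ι → Ω) (h : ipw μ G ι x ≠ 0) (i : ι) : μ (x i) ≠ 0 := by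
  obtain ⟨ω, -, h1⟩ := ipw_supp μ G x h
  exact (h1 i).2

theorem ipw_push : push Prod.snd (stw μ G ι) = ipw μ G ι := by
  classical
  funext x
  rw [push_ind, Fintype.sum_prod_type_right, Finset.sum_eq_single x]
  · unfold ipw
    refine Finset.sum_congr rfl fun ω _ => ?_
    rw [e1_ind_pos rfl, one_mul]
  · intro y _ hy
    refine Finset.sum_eq_zero fun ω _ => ?_
    rw [e1_ind_neg hy, zero_mul]
  · intro h
    exact absurd (Finset.mem_univ _) h

include hμ in
theorem ipw_CH_stw (X : (ι → Ω) → α) (Y : (ι → Ω) → β) :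
    CH (ipw μ G ι) X Y = CH (stw μ G ι) (fun w => X w.2) (fun w => Y w.2) := by
  rw [← push_CH Prod.snd (stw μ G ι) (stw_nonneg μ G hμ) X Y, ipw_push]

/-! ### one index against the others -/

/-- split off the index `i` -/
def spl (i : ι) : (Ω × (ι → Ω)) ≃ (Ω × ({j // j ≠ i} → Ω)) × Ω where
  toFun w := ((w.1, fun j => w.2 j.1), w.2 i)
  invFun v := (v.1.1, fun j => if h : j = i then v.2 else v.1.2 ⟨j, h⟩)
  left_inv w := by
    refine Prod.ext rfl ?_
    funext j
    by_cases h : j = i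
    · subst h
      simp
    · simp [h]
  right_inv v := by
    refine Prod.ext (Prod.ext rfl ?_) ?_
    · funext j
      simp [j.2]
    · simp

theorem stw_spl (i : ι) (w : Ω × (ι → Ω)) :
    stw μ G ι w = ex (stw μ G {j // j ≠ i}) Prod.fst μ G (spl i w) := by
  show μ w.1 * ∏ j, cw μ G w.1 (w.2 j) = (μ w.1 * ∏ j : {j // j ≠ i}, cw μ G w.1 (w.2 j.1)) * cw μ G w.1 (w.2 i)
  rw [Fintype.prod_eq_mul_prod_subtype_ne (fun j => cw μ G w.1 (w.2 j)) i]
  ring

include hμ in
/-- the law of the discarded copy -/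
theorem stw_fst : push Prod.fst (stw μ G ι) = μ := by
  classical
  funext ω
  rw [push_ind, Fintype.sum_prod_type, Finset.sum_eq_single ω]
  · have h1 : ∀ x : ι → Ω, e1_ind ((ω, x).1 = ω) * stw μ G ι (ω, x) = μ ω * ∏ i, cw μ G ω (x i) := by
      intro x
      rw [e1_ind_pos (show (ω, x).1 = ω from rfl), one_mul]
      rfl
    rw [Finset.sum_congr rfl fun x _ => h1 x, ← Finset.mul_sum]
    by_cases h : μ ω = 0
    · rw [h, zero_mul]
    · have h2 := Finset.prod_univ_sum (fun _ : ι => (univ : Finset Ω)) (fun _ ω' => cw μ G ω ω')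
      rw [Fintype.piFinset_univ] at h2
      rw [← h2]
      simp only [cw_sum μ G hμ ω h, Finset.prod_const_one, mul_one]
  · intro y _ hy
    refine Finset.sum_eq_zero fun x _ => ?_
    rw [e1_ind_neg hy, zero_mul]
  · intro h
    exact absurd (Finset.mem_univ _) h

include hμ in
/-- the law of one copy with the discarded one removed: marginals -/
theorem ipw_pt (i : ι) : push (fun x : ι → Ω => x i) (ipw μ G ι) = μ := by
  classical
  rw [← ipw_push, push_push]
  have h1 := ex_snd (stw μ G {j // j ≠ i}) Prod.fst μ G (stw_nonneg μ G hμ) (stw_fst μ G hμ)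
  have h2 : stw μ G ι = fun w => ex (stw μ G {j // j ≠ i}) Prod.fst μ G (spl i w) :=
    funext fun w => stw_spl μ G i w
  have h3 := push_equiv (spl i) (ex (stw μ G {j // j ≠ i}) Prod.fst μ G)
  rw [← h2] at h3
  rw [← h3, push_push] at h1
  exact h1

include hμ in
theorem ipw_CH_pt (i : ι) (X : Ω → α) (Y : Ω → β) :
    CH (ipw μ G ι) (fun x => X (x i)) (fun x => Y (x i)) = CH μ X Y := by
  rw [← push_CH (fun x : ι → Ω => x i) (ipw μ G ι) (ipw_nonneg μ G hμ) X Y, ipw_pt μ G hμ i]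

include hμ in
theorem ipw_mass [Nonempty ι] : mass (ipw μ G ι) = mass μ := by
  obtain ⟨i⟩ := ‹Nonempty ι›
  rw [← push_mass (fun x : ι → Ω => x i) _ (ipw_nonneg μ G hμ), ipw_pt μ G hμ i]

include hμ in
/-- one copy is independent of the others given the label -/
theorem ipw_ci (i : ι) (X : Ω → α) (Y : (ι → Ω) → δ)
    (hY : ∀ x x' : ι → Ω, (∀ j, j ≠ i → x j = x' j) → Y x = Y x') :
    CH (ipw μ G ι) (fun x => X (x i)) (fun x => (Y x, G (x i))) = CH μ X G := by
  classical
  rw [ipw_CH_stw μ G hμ]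
  set m := ex (stw μ G {j // j ≠ i}) Prod.fst μ G with hm
  have hm0 : ∀ v, 0 ≤ m v := ex_nonneg (stw μ G {j // j ≠ i}) Prod.fst μ G (stw_nonneg μ G hμ) (stw_fst μ G hμ)
  have h2 : stw μ G ι = fun w => m (spl i w) := funext fun w => stw_spl μ G i w
  rw [h2]
  -- `Y` as a function of the other indices
  by_cases hΩ : Nonempty Ω
  swap
  · have hE : IsEmpty Ω := not_nonempty_iff.1 hΩ
    unfold CH
    rw [Finset.sum_eq_zero, Finset.sum_eq_zero]
    · intro ω _
      exact (hE.false ω).elim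
    · intro w _
      exact (hE.false w.1).elim
  obtain ⟨ω0⟩ := hΩ
  set Y' : Ω × ({j // j ≠ i} → Ω) → δ := fun v => Y (fun j => if h : j = i then ω0 else v.2 ⟨j, h⟩) with hY'
  have h3 := ex_CH (stw μ G {j // j ≠ i}) Prod.fst μ G (stw_nonneg μ G hμ) (stw_fst μ G hμ) X Y'
  have h4 := CH_equiv (spl i) m hm0 (fun v => X v.2) (fun v => (Y' v.1, G v.1.1))
  rw [← h3, ← hm, ← h4]
  apply ch_congr_right
  intro w w' h h'
  have e1 : ∀ w : Ω × (ι → Ω), Y' (spl i w).1 = Y w.2 := by
    intro w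
    rw [hY']
    apply hY
    intro j hj
    simp only [dif_neg hj]
    rfl
  obtain ⟨-, -, a⟩ := ex_supp _ _ _ _ _ h
  obtain ⟨-, -, a'⟩ := ex_supp _ _ _ _ _ h'
  rw [e1, e1, Prod.mk.injEq, Prod.mk.injEq]
  have b : G (w.2 i) = G (spl i w).1.1 := a
  have b' : G (w'.2 i) = G (spl i w').1.1 := a'
  rw [b, b']

/-- the copies with index in `s` -/
noncomputable def msk (X : ι → Ω → α) (s : Finset ι) (x : ι → Ω) : ι → Option α :=
  fun i => if i ∈ s then some (X i (x i)) else none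

omit [Fintype Ω] [Fintype ι] in
theorem msk_insert (X : ι → Ω → α) (s : Finset ι) (a : ι) (ha : a ∉ s) (x x' : ι → Ω) :
    msk X (insert a s) x = msk X (insert a s) x' ↔ msk X s x = msk X s x' ∧ X a (x a) = X a (x' a) := by
  constructor
  · intro h
    refine ⟨?_, ?_⟩
    · funext i
      have h1 := congrFun h i
      unfold msk at h1 ⊢
      by_cases hi : i ∈ s
      · rw [if_pos (Finset.mem_insert_of_mem hi), if_pos (Finset.mem_insert_of_mem hi)] at h1
        rw [if_pos hi, if_pos hi, h1]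
      · rw [if_neg hi, if_neg hi]
    · have h1 := congrFun h a
      unfold msk at h1
      rw [if_pos (Finset.mem_insert_self a s), if_pos (Finset.mem_insert_self a s)] at h1
      exact Option.some.inj h1
  · rintro ⟨h1, h2⟩
    funext i
    have h3 := congrFun h1 i
    unfold msk at h3 ⊢
    by_cases hia : i = a
    · subst hia
      rw [h2]
    · by_cases hi : i ∈ s
      · rw [if_pos hi, if_pos hi] at h3
        rw [if_pos (Finset.mem_insert_of_mem hi), if_pos (Finset.mem_insert_of_mem hi), h3]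
      · rw [if_neg (by rw [Finset.mem_insert]; tauto), if_neg (by rw [Finset.mem_insert]; tauto)]

include hμ in
/-- entropies of families: masked form -/
theorem ipw_tup (X : ι → Ω → α) (i0 : ι) (s : Finset ι) :
    CH (ipw μ G ι) (msk X s) (fun x => G (x i0)) = ∑ i ∈ s, CH μ (X i) G := by
  classical
  induction s using Finset.induction_on with
  | empty =>
    rw [Finset.sum_empty]
    apply ch_zero
    intro x x' _ _ _
    funext i
    unfold msk
    rw [if_neg (Finset.notMem_empty i), if_neg (Finset.notMem_empty i)]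
  | insert a s ha ih =>
    rw [Finset.sum_insert ha, ← ih]
    have h1 := ch_chain (ipw μ G ι) (msk X s) (fun x => X a (x a)) (fun x => G (x i0))
    have h2 : CH (ipw μ G ι) (fun x => (msk X s x, X a (x a))) (fun x => G (x i0)) =
        CH (ipw μ G ι) (msk X (insert a s)) (fun x => G (x i0)) := by
      apply ch_congr_left
      intro x x' _ _ _
      rw [Prod.mk.injEq, msk_insert X s a ha]
    have h3 := ipw_ci μ G hμ a (X a) (msk X s) (by
      intro x x' h
      funext i
      unfold msk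
      by_cases hi : i ∈ s
      · rw [if_pos hi, if_pos hi, h i (fun e => ha (e ▸ hi))]
      · rw [if_neg hi, if_neg hi])
    have h4 : CH (ipw μ G ι) (fun x => X a (x a)) (fun x => (msk X s x, G (x i0))) =
        CH (ipw μ G ι) (fun x => X a (x a)) (fun x => (msk X s x, G (x a))) := by
      apply ch_congr_right
      intro x x' h h'
      rw [Prod.mk.injEq, Prod.mk.injEq, ipw_supp_eq μ G x h i0 a, ipw_supp_eq μ G x' h' i0 a]
    rw [← h2, h1, h4, h3]
    ring

include hμ in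
/-- entropies of families -/
theorem ipw_all (X : ι → Ω → α) (i0 : ι) :
    CH (ipw μ G ι) (fun x => fun i => X i (x i)) (fun x => G (x i0)) = ∑ i, CH μ (X i) G := by
  classical
  rw [← ipw_tup μ G hμ X i0 univ]
  apply ch_congr_left
  intro x x' _ _ _
  constructor
  · intro h
    funext i
    unfold msk
    rw [if_pos (Finset.mem_univ i), if_pos (Finset.mem_univ i), congrFun h i]
  · intro h
    funext i
    have h1 := congrFun h i
    unfold msk at h1
    rw [if_pos (Finset.mem_univ i), if_pos (Finset.mem_univ i)] at h1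
    exact Option.some.inj h1

/-! ### symmetry -/

theorem ipw_perm (e : ι' ≃ ι) (x : ι → Ω) : ipw μ G ι' (fun j => x (e j)) = ipw μ G ι x := by
  unfold ipw stw
  refine Finset.sum_congr rfl fun ω _ => ?_
  show μ ω * ∏ j, cw μ G ω (x (e j)) = μ ω * ∏ i, cw μ G ω (x i)
  rw [e.prod_comp (fun i => cw μ G ω (x i))]

/-- a symmetry of the law of the points -/
theorem ipw_symm (φ : Ω ≃ Ω) (h1 : ∀ ω, μ (φ ω) = μ ω)
    (h2 : ∀ ω ω', μ ω ≠ 0 → μ ω' ≠ 0 → (G (φ ω) = G (φ ω') ↔ G ω = G ω')) (x : ι → Ω) :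
    ipw μ G ι (fun i => φ (x i)) = ipw μ G ι x := by
  classical
  have h3 : ∀ ω ω', μ ω ≠ 0 → cw μ G (φ ω) (φ ω') = cw μ G ω ω' := by
    intro ω ω' h0
    unfold cw
    have h4 : pr μ G (φ ω) = pr μ G ω := by
      unfold pr
      rw [← φ.sum_comp]
      refine Finset.sum_congr rfl fun ω'' _ => ?_
      by_cases h5 : μ ω'' = 0
      · rw [h1, h5]
        simp
      · rw [h1]
        by_cases h6 : G ω'' = G ω
        · rw [if_pos h6, if_pos ((h2 ω'' ω h5 h0).2 h6)]
        · rw [if_neg h6, if_neg (fun h7 => h6 ((h2 ω'' ω h5 h0).1 h7))]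
    rw [h4, h1]
    by_cases h5 : μ ω' = 0
    · rw [h5]
      simp
    · by_cases h6 : G ω' = G ω
      · rw [if_pos h6, if_pos ((h2 ω' ω h5 h0).2 h6)]
      · rw [if_neg h6, if_neg (fun h7 => h6 ((h2 ω' ω h5 h0).1 h7))]
  unfold ipw stw
  rw [← φ.sum_comp]
  refine Finset.sum_congr rfl fun ω _ => ?_
  show μ (φ ω) * ∏ i, cw μ G (φ ω) (φ (x i)) = μ ω * ∏ i, cw μ G ω (x i)
  rw [h1]
  by_cases h0 : μ ω = 0
  · rw [h0, zero_mul, zero_mul]
  · rw [Finset.prod_congr rfl fun i _ => h3 ω (x i) h0]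

end

end Pool.Agent.Helper25.FA
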